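import Pool.Agent.T9h81.EAR.Defs

/-!
# Elementary facts on finite-volume Gibbs averages
-/

set_option autoImplicit false

open scoped Classical

namespace Pool.T9h81.EAR

variable {V : Type} {G : SimpleGraph V} [G.LocallyFinite]

theorem sg_not (b : Bool) : sg (!b) = - sg b := by cases b <;> simp [sg]

theorem sg_mul_self (b : Bool) : sg b * sg b = 1 := by cases b <;> simp [sg]

theorem sg_inj {a b : Bool} : sg a = sg b ↔ a = b := by
  cases a <;> cases b <;> simp [sg] <;> norm_num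

theorem sg_beq (a b : Bool) : sg (a == b) = sg a * sg b := by
  cases a <;> cases b <;> simp [sg]

theorem sg_ne {a b : Bool} (h : a ≠ b) : sg a = - sg b := by
  cases a <;> cases b <;> simp_all [sg]

theorem mem_edgesOf {Λ : Finset V} {e : Sym2 V} :
    e ∈ edgesOf G Λ ↔ ∃ x ∈ Λ, ∃ y, G.Adj x y ∧ s(x, y) = e := by
  unfold edgesOf
  rw [Finset.mem_biUnion]
  constructor
  · rintro ⟨x, hx, h⟩
    rw [Finset.mem_image] at h
    obtain ⟨y, hy, h⟩ := h
    exact ⟨x, hx, y, (SimpleGraph.mem_neighborFinset _ _ _).mp hy, h⟩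
  · rintro ⟨x, hx, y, hy, h⟩
    refine ⟨x, hx, ?_⟩
    rw [Finset.mem_image]
    exact ⟨y, (SimpleGraph.mem_neighborFinset _ _ _).mpr hy, h⟩

omit [G.LocallyFinite] in
theorem bond_mk (J : Coupling G) (σ : V → Bool) (x y : V) :
    bond J σ s(x, y) = Jc J x y * sg (σ x) * sg (σ y) := rfl

theorem edgesOf_mono {Λ' Λ : Finset V} (h : Λ' ⊆ Λ) : edgesOf G Λ' ⊆ edgesOf G Λ := by
  intro e he
  rw [mem_edgesOf] at he ⊢
  obtain ⟨x, hx, y, hy, e1⟩ := he
  exact ⟨x, h hx, y, hy, e1⟩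

theorem ham_diff (J : Coupling G) {Λ' Λ : Finset V} (h : Λ' ⊆ Λ) (σ σ' : V → Bool)
    (hs : ∀ z, z ∉ Λ' → σ z = σ' z) :
    ham J Λ σ - ham J Λ' σ = ham J Λ σ' - ham J Λ' σ' := by
  unfold ham
  have h1 := Finset.sum_sdiff (f := bond J σ) (edgesOf_mono (G := G) h)
  have h2 := Finset.sum_sdiff (f := bond J σ') (edgesOf_mono (G := G) h)
  have h3 : ∑ e ∈ edgesOf G Λ \ edgesOf G Λ', bond J σ e =
      ∑ e ∈ edgesOf G Λ \ edgesOf G Λ', bond J σ' e := by
    apply Finset.sum_congr rfl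
    intro e he
    rw [Finset.mem_sdiff] at he
    obtain ⟨x, hx, y, hy, rfl⟩ := mem_edgesOf.mp he.1
    have hx' : x ∉ Λ' := by
      intro hx'
      exact he.2 (mem_edgesOf.mpr ⟨x, hx', y, hy, rfl⟩)
    have hy' : y ∉ Λ' := by
      intro hy'
      exact he.2 (mem_edgesOf.mpr ⟨y, hy', x, hy.symm, Sym2.eq_swap⟩)
    rw [bond_mk, bond_mk, hs x hx', hs y hy']
  linarith

theorem glue_mem {Λ : Finset V} (η : Λ → Bool) (ω : V → Bool) {x : V} (h : x ∈ Λ) :
    glue Λ η ω x = η ⟨x, h⟩ := by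
  unfold glue
  rw [dif_pos h]

theorem glue_not_mem {Λ : Finset V} (η : Λ → Bool) (ω : V → Bool) {x : V}
    (h : x ∉ Λ) : glue Λ η ω x = ω x := by
  unfold glue
  rw [dif_neg h]

theorem glue_congr {Λ : Finset V} (η : Λ → Bool) (ω ω' : V → Bool)
    (h : ∀ z, z ∉ Λ → ω z = ω' z) : glue Λ η ω = glue Λ η ω' := by
  funext z
  by_cases hz : z ∈ Λ
  · rw [glue_mem η ω hz, glue_mem η ω' hz]
  · rw [glue_not_mem η ω hz, glue_not_mem η ω' hz, h z hz]

theorem Zp_pos (β : ℝ) (J : Coupling G) (Λ : Finset V) (ω : V → Bool) :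
    0 < Zp β J Λ ω := by
  unfold Zp
  exact Finset.sum_pos (fun η _ => Real.exp_pos _) Finset.univ_nonempty

theorem Zp_congr (β : ℝ) (J : Coupling G) (Λ : Finset V) (ω ω' : V → Bool)
    (h : ∀ z, z ∉ Λ → ω z = ω' z) : Zp β J Λ ω = Zp β J Λ ω' := by
  unfold Zp
  apply Finset.sum_congr rfl
  intro η _
  rw [glue_congr η ω ω' h]

theorem gE_congr (β : ℝ) (J : Coupling G) (Λ : Finset V) (ω : V → Bool)
    (f f' : (V → Bool) → ℝ) (h : ∀ η : Λ → Bool, f (glue Λ η ω) = f' (glue Λ η ω)) :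
    gE β J Λ ω f = gE β J Λ ω f' := by
  unfold gE
  congr 1
  apply Finset.sum_congr rfl
  intro η _
  rw [h η]

theorem gE_mono (β : ℝ) (J : Coupling G) (Λ : Finset V) (ω : V → Bool)
    (f f' : (V → Bool) → ℝ) (h : ∀ η : Λ → Bool, f (glue Λ η ω) ≤ f' (glue Λ η ω)) :
    gE β J Λ ω f ≤ gE β J Λ ω f' := by
  unfold gE
  apply div_le_div_of_nonneg_right _ (Zp_pos β J Λ ω).le
  apply Finset.sum_le_sum
  intro η _
  exact mul_le_mul_of_nonneg_left (h η) (Real.exp_pos _).le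

theorem gE_sum {ι : Type} (β : ℝ) (J : Coupling G) (Λ : Finset V) (ω : V → Bool)
    (s : Finset ι) (f : ι → (V → Bool) → ℝ) :
    gE β J Λ ω (fun σ => ∑ i ∈ s, f i σ) = ∑ i ∈ s, gE β J Λ ω (f i) := by
  unfold gE
  rw [← Finset.sum_div]
  congr 1
  rw [Finset.sum_comm]
  apply Finset.sum_congr rfl
  intro η _
  rw [Finset.mul_sum]

section consistency

variable {Λ Λ' : Finset V} (hsub : Λ' ⊆ Λ)

/-- replace the values on the smaller set -/
noncomputable def md (η : Λ → Bool) (η' : Λ' → Bool) : Λ → Bool :=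
  fun z => if h : z.1 ∈ Λ' then η' ⟨z.1, h⟩ else η z

/-- restriction to the smaller set -/
def rs (hsub : Λ' ⊆ Λ) (η : Λ → Bool) : Λ' → Bool := fun z => η ⟨z.1, hsub z.2⟩

theorem md_md (η : Λ → Bool) (η' : Λ' → Bool) : md (md η η') (rs hsub η) = η := by
  funext z
  unfold md rs
  by_cases h : z.1 ∈ Λ'
  · rw [dif_pos h]
  · rw [dif_neg h, dif_neg h]

theorem rs_md (η : Λ → Bool) (η' : Λ' → Bool) : rs hsub (md η η') = η' := by
  funext z
  show (if h : z.1 ∈ Λ' then η' ⟨z.1, h⟩ else _) = η' z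
  rw [dif_pos z.2]

/-- the involution of pairs -/
noncomputable def sw : Equiv.Perm ((Λ → Bool) × (Λ' → Bool)) :=
  Function.Involutive.toPerm (fun p => (md p.1 p.2, rs hsub p.1)) (by
    rintro ⟨η, η'⟩
    exact Prod.ext (md_md hsub η η') (rs_md hsub η η'))

include hsub in
theorem glue_md (η : Λ → Bool) (η' : Λ' → Bool) (ω : V → Bool) :
    glue Λ (md η η') ω = glue Λ' η' (glue Λ η ω) := by
  funext z
  by_cases hz' : z ∈ Λ'
  · have hz := hsub hz'
    rw [glue_mem _ _ hz, glue_mem _ _ hz']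
    unfold md
    rw [dif_pos hz']
  · rw [glue_not_mem _ _ hz']
    by_cases hz : z ∈ Λ
    · rw [glue_mem _ _ hz, glue_mem _ _ hz]
      unfold md
      rw [dif_neg hz']
    · rw [glue_not_mem _ _ hz, glue_not_mem _ _ hz]

theorem glue_rs (η : Λ → Bool) (η' : Λ' → Bool) (ω : V → Bool) :
    glue Λ' (rs hsub η) (glue Λ (md η η') ω) = glue Λ η ω := by
  rw [← glue_md hsub, md_md]

include hsub in
theorem gE_cons (β : ℝ) (J : Coupling G) (ω : V → Bool) (f : (V → Bool) → ℝ) :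
    gE β J Λ ω f = gE β J Λ ω (fun τ => gE β J Λ' τ f) := by
  have key : ∑ η : Λ → Bool, Real.exp (β * ham J Λ (glue Λ η ω)) * f (glue Λ η ω) =
      ∑ η : Λ → Bool, Real.exp (β * ham J Λ (glue Λ η ω)) * gE β J Λ' (glue Λ η ω) f := by
    symm
    let H : (Λ → Bool) × (Λ' → Bool) → ℝ := fun p =>
      Real.exp (β * ham J Λ (glue Λ p.1 ω)) *
        (Real.exp (β * ham J Λ' (glue Λ' p.2 (glue Λ p.1 ω))) * f (glue Λ' p.2 (glue Λ p.1 ω))) /
          Zp β J Λ' (glue Λ p.1 ω)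
    have h1 : ∑ η : Λ → Bool, Real.exp (β * ham J Λ (glue Λ η ω)) * gE β J Λ' (glue Λ η ω) f =
        ∑ p : (Λ → Bool) × (Λ' → Bool), H p := by
      rw [Fintype.sum_prod_type]
      apply Finset.sum_congr rfl
      intro η _
      show Real.exp (β * ham J Λ (glue Λ η ω)) * ((∑ η' : Λ' → Bool, _) / _) = _
      rw [← mul_div_assoc, Finset.mul_sum, Finset.sum_div]
    rw [h1, ← Equiv.sum_comp (sw hsub) H, Fintype.sum_prod_type]
    apply Finset.sum_congr rfl
    intro η _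
    have h2 : ∀ η' : Λ' → Bool, H (sw hsub (η, η')) =
        Real.exp (β * ham J Λ (glue Λ η ω)) * f (glue Λ η ω) / Zp β J Λ' (glue Λ η ω) *
          Real.exp (β * ham J Λ' (glue Λ' η' (glue Λ η ω))) := by
      intro η'
      show Real.exp (β * ham J Λ (glue Λ (md η η') ω)) *
        (Real.exp (β * ham J Λ' (glue Λ' (rs hsub η) (glue Λ (md η η') ω))) *
          f (glue Λ' (rs hsub η) (glue Λ (md η η') ω))) /
          Zp β J Λ' (glue Λ (md η η') ω) = _
      rw [glue_rs, glue_md hsub]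
      have ho : ∀ z, z ∉ Λ' → glue Λ' η' (glue Λ η ω) z = glue Λ η ω z :=
        fun z hz => glue_not_mem _ _ hz
      rw [Zp_congr β J Λ' _ _ ho]
      have h3 := ham_diff J hsub _ _ ho
      have h4 : Real.exp (β * ham J Λ (glue Λ' η' (glue Λ η ω))) *
          Real.exp (β * ham J Λ' (glue Λ η ω)) =
          Real.exp (β * ham J Λ (glue Λ η ω)) *
            Real.exp (β * ham J Λ' (glue Λ' η' (glue Λ η ω))) := by
        rw [← Real.exp_add, ← Real.exp_add]
        congr 1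
        linear_combination β * h3
      rw [← mul_assoc, h4]
      ring
    rw [Finset.sum_congr rfl (fun η' _ => h2 η'), ← Finset.mul_sum]
    exact div_mul_cancel₀ _ (Zp_pos β J Λ' _).ne'
  show (∑ η : Λ → Bool, _) / _ = (∑ η : Λ → Bool, _) / _
  rw [key]

end consistency

/-! ### Global spin flip -/

/-- global spin flip -/
def flipAll (σ : V → Bool) : V → Bool := fun x => !σ x

omit [G.LocallyFinite] in
theorem bond_flipAll (J : Coupling G) (σ : V → Bool) (e : Sym2 V) :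
    bond J (flipAll σ) e = bond J σ e := by
  induction e using Sym2.ind with
  | _ x y =>
    rw [bond_mk, bond_mk]
    unfold flipAll
    rw [sg_not, sg_not]
    ring

theorem ham_flipAll (J : Coupling G) (Λ : Finset V) (σ : V → Bool) :
    ham J Λ (flipAll σ) = ham J Λ σ := by
  unfold ham
  exact Finset.sum_congr rfl fun e _ => bond_flipAll J σ e

/-- flipping in the box -/
def flipEquiv (Λ : Finset V) : Equiv.Perm (Λ → Bool) :=
  Function.Involutive.toPerm (fun η => fun z => !η z) (by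
    intro η
    funext z
    simp)

theorem glue_flip (Λ : Finset V) (η : Λ → Bool) (ω : V → Bool) :
    glue Λ (flipEquiv Λ η) (flipAll ω) = flipAll (glue Λ η ω) := by
  funext z
  by_cases hz : z ∈ Λ
  · rw [glue_mem _ _ hz]
    unfold flipAll
    rw [glue_mem _ _ hz]
    rfl
  · rw [glue_not_mem _ _ hz]
    unfold flipAll
    rw [glue_not_mem _ _ hz]

theorem gE_flip (β : ℝ) (J : Coupling G) (Λ : Finset V) (ω : V → Bool) (f : (V → Bool) → ℝ) :
    gE β J Λ (flipAll ω) f = gE β J Λ ω (fun σ => f (flipAll σ)) := by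
  have hZ : Zp β J Λ (flipAll ω) = Zp β J Λ ω := by
    unfold Zp
    rw [← Equiv.sum_comp (flipEquiv Λ)]
    apply Finset.sum_congr rfl
    intro η _
    rw [glue_flip, ham_flipAll]
  unfold gE
  rw [hZ]
  congr 1
  rw [← Equiv.sum_comp (flipEquiv Λ)]
  apply Finset.sum_congr rfl
  intro η _
  rw [glue_flip, ham_flipAll]

end Pool.T9h81.EAR
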