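import Pool.Agent.T9h81.EAR.Link

/-!
# Encoding the vertical boundary edges by a walk with costs
-/

set_option autoImplicit false

open scoped Classical

namespace Pool.T9h81.EAR

variable {d : ℕ}

/-- zero and all unit vectors -/
noncomputable def hs (d : ℕ) : Finset (Site d) :=
  insert 0 ((Finset.univ.image fun k : Fin d => (Pi.single k 1 : Site d)) ∪
    (Finset.univ.image fun k : Fin d => -(Pi.single k 1 : Site d)))

theorem card_hs (d : ℕ) : (hs d).card ≤ 2 * d + 1 := by
  unfold hs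
  refine (Finset.card_insert_le _ _).trans ?_
  have h1 := Finset.card_union_le (Finset.univ.image fun k : Fin d => (Pi.single k 1 : Site d))
    (Finset.univ.image fun k : Fin d => -(Pi.single k 1 : Site d))
  have h2 : (Finset.univ.image fun k : Fin d => (Pi.single k 1 : Site d)).card ≤ d :=
    Finset.card_image_le.trans (by simp)
  have h3 : (Finset.univ.image fun k : Fin d => -(Pi.single k 1 : Site d)).card ≤ d :=
    Finset.card_image_le.trans (by simp)
  omega

theorem zero_mem_hs : (0 : Site d) ∈ hs d := Finset.mem_insert_self _ _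

theorem HU.mem_hs {i : Fin d} {κ : Site d} (h : HU i κ) : κ ∈ hs d := by
  unfold hs
  rw [Finset.mem_insert, Finset.mem_union, Finset.mem_image, Finset.mem_image]
  obtain ⟨k, -, h | h⟩ := h
  · exact Or.inr (Or.inl ⟨k, Finset.mem_univ k, h.symm⟩)
  · exact Or.inr (Or.inr ⟨k, Finset.mem_univ k, h.symm⟩)

theorem neg_mem_hs {κ : Site d} (h : κ ∈ hs d) : -κ ∈ hs d := by
  unfold hs at *
  rw [Finset.mem_insert, Finset.mem_union, Finset.mem_image, Finset.mem_image] at *
  rcases h with h | ⟨k, -, h⟩ | ⟨k, -, h⟩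
  · left
    rw [h, neg_zero]
  · exact Or.inr (Or.inr ⟨k, Finset.mem_univ k, by rw [h]⟩)
  · exact Or.inr (Or.inl ⟨k, Finset.mem_univ k, by rw [← h, neg_neg]⟩)

/-- the sites which may be linked to `u` by a link of length `r` -/
noncomputable def nb (i : Fin d) (r : ℕ) (u : Site d) : Finset (Site d) :=
  ((hs d).image fun κ => u + Pi.single i (r : ℤ) + κ) ∪
    ((hs d).image fun κ => u - Pi.single i (r : ℤ) + κ)

theorem card_nb (i : Fin d) (r : ℕ) (u : Site d) : (nb i r u).card ≤ 4 * d + 2 := by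
  unfold nb
  refine (Finset.card_union_le _ _).trans ?_
  have h1 : ((hs d).image fun κ => u + Pi.single i (r : ℤ) + κ).card ≤ 2 * d + 1 :=
    Finset.card_image_le.trans (card_hs d)
  have h2 : ((hs d).image fun κ => u - Pi.single i (r : ℤ) + κ).card ≤ 2 * d + 1 :=
    Finset.card_image_le.trans (card_hs d)
  omega

theorem nb_symm {i : Fin d} {r : ℕ} {u v : Site d} (h : v ∈ nb i r u) : u ∈ nb i r v := by
  unfold nb at *
  rw [Finset.mem_union, Finset.mem_image, Finset.mem_image] at *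
  rcases h with ⟨κ, hκ, h⟩ | ⟨κ, hκ, h⟩
  · right
    refine ⟨-κ, neg_mem_hs hκ, ?_⟩
    rw [← h]
    abel
  · left
    refine ⟨-κ, neg_mem_hs hκ, ?_⟩
    rw [← h]
    abel

theorem Up.mem_nb {B : Finset (Site d)} {i : Fin d} {r : ℕ} {u v : Site d} (h : Up B i r u v) :
    v ∈ nb i r u := by
  obtain ⟨κ, hκ, ⟨rfl, h⟩ | ⟨-, h, -, -⟩⟩ := h
  · unfold nb
    rw [Finset.mem_union, Finset.mem_image]
    left
    refine ⟨κ, hκ.mem_hs, ?_⟩
    rw [h]
    simp
  · unfold nb
    rw [Finset.mem_union, Finset.mem_image]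
    left
    rcases h with h | h
    · refine ⟨0, zero_mem_hs, ?_⟩
      rw [h, add_zero]
      rfl
    · refine ⟨κ, hκ.mem_hs, ?_⟩
      rw [h]
      rfl

/-- vertex lists of walks with `L` steps and total cost at most `M` -/
noncomputable def cw (i : Fin d) : ℕ → ℕ → Site d → Finset (List (Site d))
  | 0, _, x => {[x]}
  | L + 1, M, x => (Finset.range (M + 1)).biUnion fun r =>
      (nb i r x).biUnion fun y => (cw i L (M - r) y).image fun l => x :: l

theorem mem_cw_zero {i : Fin d} {M : ℕ} {x : Site d} {l : List (Site d)} :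
    l ∈ cw i 0 M x ↔ l = [x] := by
  rw [cw, Finset.mem_singleton]

theorem mem_cw_succ {i : Fin d} {L M : ℕ} {x : Site d} {l : List (Site d)} :
    l ∈ cw i (L + 1) M x ↔ ∃ r ≤ M, ∃ y ∈ nb i r x, ∃ t ∈ cw i L (M - r) y, x :: t = l := by
  rw [cw, Finset.mem_biUnion]
  constructor
  · rintro ⟨r, hr, h⟩
    obtain ⟨y, hy, h⟩ := Finset.mem_biUnion.mp h
    obtain ⟨t, ht, h⟩ := Finset.mem_image.mp h
    exact ⟨r, by rw [Finset.mem_range] at hr; omega, y, hy, t, ht, h⟩
  · rintro ⟨r, hr, y, hy, t, ht, h⟩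
    exact ⟨r, Finset.mem_range.mpr (by omega), Finset.mem_biUnion.mpr ⟨y, hy,
      Finset.mem_image.mpr ⟨t, ht, h⟩⟩⟩

theorem cw_mono {i : Fin d} (L : ℕ) : ∀ {M M' : ℕ} {x : Site d} {l : List (Site d)}, M ≤ M' →
    l ∈ cw i L M x → l ∈ cw i L M' x := by
  induction L with
  | zero =>
    intro M M' x l _ h
    rw [mem_cw_zero] at *
    exact h
  | succ L ih =>
    intro M M' x l hM h
    rw [mem_cw_succ] at *
    obtain ⟨r, hr, y, hy, t, ht, h⟩ := h
    exact ⟨r, hr.trans hM, y, hy, t, ih (by omega) ht, h⟩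

theorem card_cw (i : Fin d) (z : ℝ) (hz0 : 0 < z) (hz1 : z < 1) (L : ℕ) :
    ∀ (M : ℕ) (x : Site d),
      ((cw i L M x).card : ℝ) * z ^ M ≤ (((4 * d + 2 : ℕ) : ℝ) / (1 - z)) ^ L := by
  induction L with
  | zero =>
    intro M x
    rw [cw, Finset.card_singleton, pow_zero, Nat.cast_one, one_mul]
    exact pow_le_one₀ hz0.le hz1.le
  | succ L ih =>
    intro M x
    have hz1' : 0 < 1 - z := by linarith
    set Q : ℝ := ((4 * d + 2 : ℕ) : ℝ) with hQ
    have hQ0 : 0 ≤ Q := Nat.cast_nonneg _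
    have h1 : ((cw i (L + 1) M x).card : ℝ) ≤ ∑ r ∈ Finset.range (M + 1),
        ∑ y ∈ nb i r x, ((cw i L (M - r) y).card : ℝ) := by
      rw [cw]
      have h2 := Finset.card_biUnion_le (s := Finset.range (M + 1)) (t := fun r =>
        (nb i r x).biUnion fun y => (cw i L (M - r) y).image fun l => x :: l)
      refine (Nat.cast_le.mpr h2).trans ?_
      rw [Nat.cast_sum]
      apply Finset.sum_le_sum
      intro r _
      have h3 := Finset.card_biUnion_le (s := nb i r x) (t := fun y =>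
        (cw i L (M - r) y).image fun l => x :: l)
      refine (Nat.cast_le.mpr h3).trans ?_
      rw [Nat.cast_sum]
      apply Finset.sum_le_sum
      intro y _
      exact_mod_cast Finset.card_image_le
    have h4 : ∀ r ∈ Finset.range (M + 1),
        (∑ y ∈ nb i r x, ((cw i L (M - r) y).card : ℝ)) * z ^ M ≤
          z ^ r * (Q * (Q / (1 - z)) ^ L) := by
      intro r hr
      have hrM : r ≤ M := by
        rw [Finset.mem_range] at hr
        omega
      have h5 : z ^ M = z ^ (M - r) * z ^ r := by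
        rw [← pow_add]
        congr 1
        omega
      rw [Finset.sum_mul]
      calc ∑ y ∈ nb i r x, ((cw i L (M - r) y).card : ℝ) * z ^ M
          = ∑ y ∈ nb i r x, (((cw i L (M - r) y).card : ℝ) * z ^ (M - r)) * z ^ r := by
            apply Finset.sum_congr rfl
            intro y _
            rw [h5, mul_assoc]
        _ ≤ ∑ y ∈ nb i r x, (Q / (1 - z)) ^ L * z ^ r := by
            apply Finset.sum_le_sum
            intro y _
            exact mul_le_mul_of_nonneg_right (ih (M - r) y) (by positivity)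
        _ = ((nb i r x).card : ℝ) * ((Q / (1 - z)) ^ L * z ^ r) := by
            rw [Finset.sum_const, nsmul_eq_mul]
        _ ≤ Q * ((Q / (1 - z)) ^ L * z ^ r) := by
            apply mul_le_mul_of_nonneg_right _ (by positivity)
            rw [hQ]
            exact_mod_cast card_nb i r x
        _ = z ^ r * (Q * (Q / (1 - z)) ^ L) := by ring
    calc ((cw i (L + 1) M x).card : ℝ) * z ^ M
        ≤ (∑ r ∈ Finset.range (M + 1), ∑ y ∈ nb i r x, ((cw i L (M - r) y).card : ℝ)) * z ^ M :=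
          mul_le_mul_of_nonneg_right h1 (by positivity)
      _ = ∑ r ∈ Finset.range (M + 1),
          (∑ y ∈ nb i r x, ((cw i L (M - r) y).card : ℝ)) * z ^ M := Finset.sum_mul _ _ _
      _ ≤ ∑ r ∈ Finset.range (M + 1), z ^ r * (Q * (Q / (1 - z)) ^ L) := Finset.sum_le_sum h4
      _ = (∑ r ∈ Finset.range (M + 1), z ^ r) * (Q * (Q / (1 - z)) ^ L) :=
          (Finset.sum_mul _ _ _).symm
      _ ≤ (1 - z)⁻¹ * (Q * (Q / (1 - z)) ^ L) := by
          apply mul_le_mul_of_nonneg_right _ (by positivity)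
          rw [← tsum_geometric_of_lt_one hz0.le hz1]
          exact (summable_geometric_of_lt_one hz0.le hz1).sum_le_tsum _ fun n _ => by positivity
      _ = (Q / (1 - z)) ^ (L + 1) := by
          rw [pow_succ, div_eq_mul_inv]
          ring

theorem cw_insert {i : Fin d} (L : ℕ) : ∀ (M : ℕ) (x : Site d) (l : List (Site d)) (z y : Site d)
    (r : ℕ), l ∈ cw i L M x → z ∈ l → y ∈ nb i r z →
    ∃ l' ∈ cw i (L + 2) (M + 2 * r) x, l'.toFinset = insert y l.toFinset := by
  induction L with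
  | zero =>
    intro M x l z y r hl hz hzy
    rw [mem_cw_zero] at hl
    subst hl
    rw [List.mem_singleton] at hz
    subst hz
    refine ⟨[z, y, z], ?_, ?_⟩
    · refine mem_cw_succ.mpr ⟨r, by omega, y, hzy, [y, z], ?_, rfl⟩
      refine mem_cw_succ.mpr ⟨r, by omega, z, nb_symm hzy, [z], ?_, rfl⟩
      rw [mem_cw_zero]
    · ext w
      simp only [List.mem_toFinset, List.mem_cons, List.not_mem_nil, Finset.mem_insert]
      tauto
  | succ L ih =>
    intro M x l z y r hl hz hzy
    obtain ⟨r₁, hr₁, y₁, hxy, t, ht, rfl⟩ := mem_cw_succ.mp hl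
    by_cases hzx : z = x
    · subst hzx
      refine ⟨z :: y :: z :: t, ?_, ?_⟩
      · refine mem_cw_succ.mpr ⟨r, by omega, y, hzy, y :: z :: t, ?_, rfl⟩
        refine mem_cw_succ.mpr ⟨r, by omega, z, nb_symm hzy, z :: t, ?_, rfl⟩
        exact cw_mono _ (by omega) hl
      · ext w
        simp only [List.mem_toFinset, List.mem_cons, Finset.mem_insert]
        tauto
    · have hzt : z ∈ t := by
        rcases List.mem_cons.mp hz with h | h
        · exact absurd h hzx
        · exact h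
      obtain ⟨t', ht', h2⟩ := ih (M - r₁) y₁ t z y r ht hzt hzy
      refine ⟨x :: t', mem_cw_succ.mpr ⟨r₁, by omega, y₁, hxy, t', ?_, rfl⟩, ?_⟩
      · exact cw_mono _ (by omega) ht'
      · rw [List.toFinset_cons, List.toFinset_cons, h2, Finset.insert_comm]

/-- growing the set of vertical boundary edges along links -/
theorem exists_code (B : Finset (Site d)) (i : Fin d) (hB : ConnSet (B : Set (Site d)))
    (hBc : ConnSet {x | x ∉ B}) (c : Site d → ℕ)
    (hc : ∀ u ∈ Sv B i, ∀ v ∈ Sv B i, ∀ r, Up B i r u v → r ≤ c u ∧ r ≤ c v)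
    (u₀ : Site d) (hu₀ : u₀ ∈ Sv B i) (m : ℕ) :
    m < (Sv B i).card → ∃ T ⊆ Sv B i, u₀ ∈ T ∧ T.card = m + 1 ∧
      ∃ l ∈ cw i (2 * m) (2 * ∑ v ∈ T, c v) u₀, l.toFinset = T := by
  induction m with
  | zero =>
    intro _
    refine ⟨{u₀}, Finset.singleton_subset_iff.mpr hu₀, Finset.mem_singleton_self u₀,
      Finset.card_singleton u₀, [u₀], ?_, ?_⟩
    · exact mem_cw_zero.mpr rfl
    · simp
  | succ m ih =>
    intro hm
    obtain ⟨T, hTS, huT, hT, l, hl, hlT⟩ := ih (Nat.lt_of_succ_lt hm)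
    have hne : T ≠ Sv B i := by
      intro h
      rw [h] at hT
      omega
    have h1 : ¬ ∀ u ∈ Sv B i, ∀ v ∈ Sv B i, ∀ r, Up B i r u v → (u ∈ T ↔ v ∈ T) := fun h =>
      hne (link_closed B T i hB hBc hTS ⟨u₀, huT⟩ h)
    push Not at h1
    obtain ⟨u, hu, v, hv, r, huv, hdiff⟩ := h1
    -- the vertex already visited and the new one
    have h2 : ∃ z ∈ T, ∃ y ∈ Sv B i, y ∉ T ∧ y ∈ nb i r z ∧ r ≤ c y := by
      obtain ⟨hr1, hr2⟩ := hc u hu v hv r huv
      rcases hdiff with ⟨h3, h4⟩ | ⟨h3, h4⟩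
      · exact ⟨u, h3, v, hv, h4, huv.mem_nb, hr2⟩
      · exact ⟨v, h4, u, hu, h3, nb_symm huv.mem_nb, hr1⟩
    obtain ⟨z, hz, y, hy, hyT, hyz, hry⟩ := h2
    have hzl : z ∈ l := by
      rw [← List.mem_toFinset, hlT]
      exact hz
    obtain ⟨l', hl', h3⟩ := cw_insert (2 * m) _ u₀ l z y r hl hzl hyz
    refine ⟨insert y T, Finset.insert_subset hy hTS, Finset.mem_insert_of_mem huT, ?_, l', ?_, ?_⟩
    · rw [Finset.card_insert_of_notMem hyT, hT]
    · rw [Finset.sum_insert hyT]
      exact cw_mono _ (by omega) hl'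
    · rw [h3, hlT]

end Pool.T9h81.EAR
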