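import Pool.Agent.T9h81.EAR.Code

/-!
# The costs of the links, the root, and the number of vertical boundary edges
-/

set_option autoImplicit false

open scoped Classical

namespace Pool.T9h81.EAR

variable {d : ℕ}

/-- ordered pairs of adjacent sites, the first in `B`, the second off `B` -/
noncomputable def bp (B : Finset (Site d)) : Finset (Site d × Site d) :=
  B.biUnion fun u => ((lat d).neighborFinset u \ B).image fun v => (u, v)

theorem mem_bp {B : Finset (Site d)} {p : Site d × Site d} :
    p ∈ bp B ↔ p.1 ∈ B ∧ p.2 ∉ B ∧ (lat d).Adj p.1 p.2 := by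
  unfold bp
  rw [Finset.mem_biUnion]
  constructor
  · rintro ⟨u, hu, h⟩
    obtain ⟨v, hv, rfl⟩ := Finset.mem_image.mp h
    rw [Finset.mem_sdiff, SimpleGraph.mem_neighborFinset] at hv
    exact ⟨hu, hv.2, hv.1⟩
  · rintro ⟨h1, h2, h3⟩
    refine ⟨p.1, h1, Finset.mem_image.mpr ⟨p.2, ?_, rfl⟩⟩
    rw [Finset.mem_sdiff, SimpleGraph.mem_neighborFinset]
    exact ⟨h3, h2⟩

/-- the pairs correspond to the boundary edges -/
theorem card_bp (B : Finset (Site d)) : (bp B).card = (bdE (lat d) B).card := by
  apply Finset.card_bij (fun p _ => s(p.1, p.2))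
  · intro p hp
    obtain ⟨h1, h2, h3⟩ := mem_bp.mp hp
    exact mem_bdE.mpr ⟨p.1, h1, p.2, h2, h3, rfl⟩
  · intro p hp q hq h
    obtain ⟨h1, h2, h3⟩ := mem_bp.mp hp
    obtain ⟨k1, k2, k3⟩ := mem_bp.mp hq
    rcases Sym2.eq_iff.mp h with h4 | h4
    · exact Prod.ext h4.1 h4.2
    · exact absurd (h4.1 ▸ h1) k2
  · intro e he
    obtain ⟨u, hu, v, hv, huv, rfl⟩ := mem_bdE.mp he
    exact ⟨(u, v), mem_bp.mpr ⟨hu, hv, huv⟩, rfl⟩

/-- ordered pairs of adjacent sites, exactly one of them in `B` -/
noncomputable def HB (B : Finset (Site d)) : Finset (Site d × Site d) :=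
  bp B ∪ (bp B).image Prod.swap

theorem mem_HB {B : Finset (Site d)} {x y : Site d} (hadj : (lat d).Adj x y)
    (h : ¬ (x ∈ B ↔ y ∈ B)) : (x, y) ∈ HB B := by
  unfold HB
  rw [Finset.mem_union, Finset.mem_image]
  by_cases hx : x ∈ B
  · left
    exact mem_bp.mpr ⟨hx, fun hy => h ⟨fun _ => hy, fun _ => hx⟩, hadj⟩
  · right
    have hy : y ∈ B := by
      by_contra hy
      exact h ⟨fun h2 => absurd h2 hx, fun h2 => absurd h2 hy⟩
    exact ⟨(y, x), mem_bp.mpr ⟨hy, hx, hadj.symm⟩, rfl⟩

theorem card_HB (B : Finset (Site d)) : (HB B).card ≤ 2 * (bdE (lat d) B).card := by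
  unfold HB
  have h1 := Finset.card_union_le (bp B) ((bp B).image Prod.swap)
  have h2 : ((bp B).image Prod.swap).card ≤ (bp B).card := Finset.card_image_le
  rw [card_bp] at *
  omega

/-- `v` is the first element of `S` strictly below `x` -/
def FB (S : Finset (Site d)) (i : Fin d) (v x : Site d) : Prop :=
  ∃ j, 1 ≤ j ∧ x = sh i v j ∧ ∀ j', 1 ≤ j' → j' < j → sh i v j' ∉ S

/-- `v` is the first element of `S` at or above `x` -/
def FA (S : Finset (Site d)) (i : Fin d) (v x : Site d) : Prop :=
  ∃ j, v = sh i x j ∧ ∀ j', j' < j → sh i x j' ∉ S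

theorem FB_unique {S : Finset (Site d)} {i : Fin d} {v v' x : Site d} (hv : v ∈ S) (hv' : v' ∈ S)
    (h : FB S i v x) (h' : FB S i v' x) : v = v' := by
  obtain ⟨j, hj, hx, hn⟩ := h
  obtain ⟨j', hj', hx', hn'⟩ := h'
  rcases lt_trichotomy j j' with hlt | heq | hgt
  · exfalso
    have h1 : sh i v' (j' - j) = v := by
      have h2 : sh i (sh i v' (j' - j)) j = sh i v j := by
        rw [sh_sh, ← hx, hx']
        congr 1
        omega
      exact sh_inj h2
    exact hn' (j' - j) (by omega) (by omega) (h1 ▸ hv)
  · subst heq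
    exact sh_inj (hx.symm.trans hx')
  · exfalso
    have h1 : sh i v (j - j') = v' := by
      have h2 : sh i (sh i v (j - j')) j' = sh i v' j' := by
        rw [sh_sh, ← hx', hx]
        congr 1
        omega
      exact sh_inj h2
    exact hn (j - j') (by omega) (by omega) (h1 ▸ hv')

theorem FA_unique {S : Finset (Site d)} {i : Fin d} {v v' x : Site d} (hv : v ∈ S) (hv' : v' ∈ S)
    (h : FA S i v x) (h' : FA S i v' x) : v = v' := by
  obtain ⟨j, hx, hn⟩ := h
  obtain ⟨j', hx', hn'⟩ := h'
  rcases lt_trichotomy j j' with hlt | heq | hgt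
  · exact absurd (hx ▸ hv) (hn' j hlt)
  · rw [hx, hx', heq]
  · exact absurd (hx' ▸ hv') (hn j' hgt)

/-- the cost attached to a vertical boundary edge -/
noncomputable def cost (B : Finset (Site d)) (i : Fin d) (v : Site d) : ℕ :=
  ((HB B).filter fun p => FB (Sv B i) i v p.1).card +
    ((HB B).filter fun p => FA (Sv B i) i v p.1).card

theorem sum_card_filter_le {α β : Type} (S : Finset α) (H : Finset β)
    (R : α → β → Prop) (hR : ∀ v ∈ S, ∀ v' ∈ S, ∀ p ∈ H, R v p → R v' p → v = v') :
    ∑ v ∈ S, (H.filter fun p => R v p).card ≤ H.card := by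
  rw [← Finset.card_biUnion]
  · apply Finset.card_le_card
    intro p hp
    obtain ⟨v, _, h⟩ := Finset.mem_biUnion.mp hp
    exact (Finset.mem_filter.mp h).1
  · intro v hv v' hv' hne
    simp only [Function.onFun]
    rw [Finset.disjoint_left]
    intro p hp hp'
    have h1 := Finset.mem_filter.mp hp
    have h2 := Finset.mem_filter.mp hp'
    exact hne (hR v hv v' hv' p h1.1 h1.2 h2.2)

theorem sum_cost (B : Finset (Site d)) (i : Fin d) :
    ∑ v ∈ Sv B i, cost B i v ≤ 4 * (bdE (lat d) B).card := by
  unfold cost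
  rw [Finset.sum_add_distrib]
  have h1 := sum_card_filter_le (Sv B i) (HB B) (fun v p => FB (Sv B i) i v p.1)
    fun v hv v' hv' p _ h h' => FB_unique hv hv' h h'
  have h2 := sum_card_filter_le (Sv B i) (HB B) (fun v p => FA (Sv B i) i v p.1)
    fun v hv v' hv' p _ h h' => FA_unique hv hv' h h'
  have h3 := card_HB B
  omega

theorem sh_inj_nat {i : Fin d} {u : Site d} {j j' : ℕ} (h : sh i u j = sh i u j') : j = j' := by
  unfold sh at h
  have h1 := congrFun (add_left_cancel h) i
  rw [Pi.single_eq_same, Pi.single_eq_same] at h1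
  exact_mod_cast h1

/-- the length of a link is at most the cost of either endpoint -/
theorem link_le_cost (B : Finset (Site d)) (i : Fin d) (u : Site d) (v : Site d) (r : ℕ)
    (h : Up B i r u v) : r ≤ cost B i u ∧ r ≤ cost B i v := by
  obtain ⟨κ, hκ, ⟨rfl, -⟩ | ⟨hr, hv, h1, h2⟩⟩ := h
  · exact ⟨Nat.zero_le _, Nat.zero_le _⟩
  constructor
  · -- upwards from `u`
    unfold cost
    refine le_trans ?_ (Nat.le_add_right _ _)
    have hinj : Set.InjOn (fun j : ℕ => (sh i u (j + 1), sh i u (j + 1) + κ))
        (Finset.range r : Set ℕ) := by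
      intro j _ j' _ hjj
      have h3 := sh_inj_nat (Prod.ext_iff.mp hjj).1
      omega
    have h3 := Finset.card_image_of_injOn hinj
    rw [Finset.card_range] at h3
    rw [← h3]
    apply Finset.card_le_card
    intro p hp
    obtain ⟨j, hj, rfl⟩ := Finset.mem_image.mp hp
    rw [Finset.mem_range] at hj
    rw [Finset.mem_filter]
    refine ⟨mem_HB (hκ.adj _) (h1 (j + 1) (by omega) (by omega)), j + 1, by omega, rfl, ?_⟩
    intro j' hj1 hj2
    exact (h2 j' hj1 (by omega)).1
  · -- downwards from `v`
    unfold cost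
    refine le_trans ?_ (Nat.le_add_left _ _)
    rcases hv with hv | hv
    · have hinj : Set.InjOn (fun j : ℕ => (sh i u (j + 1), sh i u (j + 1) + κ))
          (Finset.range r : Set ℕ) := by
        intro j _ j' _ hjj
        have h3 := sh_inj_nat (Prod.ext_iff.mp hjj).1
        omega
      have h3 := Finset.card_image_of_injOn hinj
      rw [Finset.card_range] at h3
      rw [← h3]
      apply Finset.card_le_card
      intro p hp
      obtain ⟨j, hj, rfl⟩ := Finset.mem_image.mp hp
      rw [Finset.mem_range] at hj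
      rw [Finset.mem_filter]
      refine ⟨mem_HB (hκ.adj _) (h1 (j + 1) (by omega) (by omega)), r - (j + 1), ?_, ?_⟩
      · show v = sh i (sh i u (j + 1)) (r - (j + 1))
        rw [sh_sh, hv]
        congr 1
        omega
      · intro j' hj'
        show sh i (sh i u (j + 1)) j' ∉ _
        rw [sh_sh]
        exact (h2 _ (by omega) (by omega)).1
    · have hinj : Set.InjOn (fun j : ℕ => (sh i u (j + 1) + κ, sh i u (j + 1)))
          (Finset.range r : Set ℕ) := by
        intro j _ j' _ hjj
        have h3 := sh_inj_nat (Prod.ext_iff.mp hjj).2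
        omega
      have h3 := Finset.card_image_of_injOn hinj
      rw [Finset.card_range] at h3
      rw [← h3]
      apply Finset.card_le_card
      intro p hp
      obtain ⟨j, hj, rfl⟩ := Finset.mem_image.mp hp
      rw [Finset.mem_range] at hj
      rw [Finset.mem_filter]
      have h4 := h1 (j + 1) (by omega) (by omega)
      refine ⟨mem_HB (hκ.adj _).symm (fun h5 => h4 h5.symm), r - (j + 1), ?_, ?_⟩
      · show v = sh i (sh i u (j + 1) + κ) (r - (j + 1))
        rw [sh_add, sh_sh, hv]
        congr 2
        omega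
      · intro j' hj'
        show sh i (sh i u (j + 1) + κ) j' ∉ _
        rw [sh_add, sh_sh]
        exact (h2 _ (by omega) (by omega)).2

/-- leaving a finite set along a line -/
theorem exists_exit (B : Finset (Site d)) (i : Fin d) (x : Site d) (hx : x ∈ B) :
    ∃ h : ℕ, (∀ j ≤ h, sh i x j ∈ B) ∧ sh i x (h + 1) ∉ B := by
  have hex : ∃ h : ℕ, sh i x (h + 1) ∉ B := by
    by_contra hcon
    push Not at hcon
    have hinj : Function.Injective fun h : ℕ => (⟨sh i x (h + 1), hcon h⟩ : B) := by
      intro h h' hh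
      have h1 := sh_inj_nat (Subtype.ext_iff.mp hh)
      omega
    exact not_injective_infinite_finite _ hinj
  refine ⟨Nat.find hex, ?_, Nat.find_spec hex⟩
  intro j hj
  rcases Nat.eq_zero_or_pos j with h0 | hpos
  · rw [h0, sh_zero]
    exact hx
  · have h1 := Nat.find_min hex (m := j - 1) (by omega)
    rw [not_not] at h1
    have h2 : j - 1 + 1 = j := by omega
    rw [h2] at h1
    exact h1

/-- the root: the first vertical boundary edge above `x`; its height is less than the size of the
boundary -/
theorem exists_root (hd : 2 ≤ d) (B : Finset (Site d)) (i : Fin d) (x : Site d) (hx : x ∈ B) :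
    ∃ h < (bdE (lat d) B).card, sh i x h ∈ Sv B i := by
  obtain ⟨h, hin, hout⟩ := exists_exit B i x hx
  have hk : ∃ k : Fin d, k ≠ i := by
    have : Nontrivial (Fin d) := Fin.nontrivial_iff_two_le.mpr hd
    exact exists_ne i
  obtain ⟨k, hk⟩ := hk
  refine ⟨h, ?_, ?_⟩
  · -- at every height there is a horizontal boundary edge
    have hex : ∀ j : ℕ, ∃ p : Site d × Site d, j ≤ h → (p ∈ bp B ∧ p.1 i = x i + j) := by
      intro j
      by_cases hj : j ≤ h
      · obtain ⟨t, ht, hto⟩ := exists_exit B k (sh i x j) (hin j hj)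
        refine ⟨(sh k (sh i x j) t, sh k (sh i x j) (t + 1)), fun _ => ⟨?_, ?_⟩⟩
        · refine mem_bp.mpr ⟨ht t le_rfl, hto, ?_⟩
          rw [sh_succ]
          exact ⟨k, Or.inl rfl⟩
        · show (sh k (sh i x j) t) i = x i + j
          unfold sh
          rw [Pi.add_apply, Pi.add_apply, Pi.single_eq_of_ne hk.symm, Pi.single_eq_same, add_zero]
      · exact ⟨(0, 0), fun h' => absurd h' hj⟩
    choose p hp using hex
    have hinj : Set.InjOn p (Finset.range (h + 1) : Set ℕ) := by
      intro j hj j' hj' hjj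
      have hj2 : j ≤ h := by
        have := Finset.mem_range.mp (Finset.mem_coe.mp hj)
        omega
      have hj2' : j' ≤ h := by
        have := Finset.mem_range.mp (Finset.mem_coe.mp hj')
        omega
      have h1 := (hp j hj2).2
      have h2 := (hp j' hj2').2
      rw [hjj, h2] at h1
      omega
    have h3 := Finset.card_image_of_injOn hinj
    rw [Finset.card_range] at h3
    have h4 : (Finset.image p (Finset.range (h + 1))).card ≤ (bp B).card := by
      apply Finset.card_le_card
      intro q hq
      obtain ⟨j, hj, rfl⟩ := Finset.mem_image.mp hq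
      rw [Finset.mem_range] at hj
      exact (hp j (by omega)).1
    rw [card_bp] at h4
    omega
  · rw [mem_Sv, ← sh_succ]
    exact fun h5 => hout (h5.mp (hin h le_rfl))

/-- each boundary edge is vertical for exactly one direction -/
theorem sum_Sv (B : Finset (Site d)) : ∑ i, (Sv B i).card ≤ (bdE (lat d) B).card := by
  have h1 : ∑ i, (Sv B i).card = (Finset.univ.sigma fun i => Sv B i).card :=
    (Finset.card_sigma _ _).symm
  rw [h1]
  apply Finset.card_le_card_of_injOn
    (fun p : (_ : Fin d) × Site d => s(p.2, p.2 + Pi.single p.1 1))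
  · rintro ⟨i, u⟩ hp
    have hu : u ∈ Sv B i := (Finset.mem_sigma.mp (Finset.mem_coe.mp hp)).2
    rw [mem_Sv] at hu
    rw [Finset.mem_coe, mem_bdE]
    by_cases huB : u ∈ B
    · exact ⟨u, huB, u + Pi.single i 1, fun h => hu ⟨fun _ => h, fun _ => huB⟩,
        ⟨i, Or.inl rfl⟩, rfl⟩
    · have h2 : u + Pi.single i 1 ∈ B := by
        by_contra h
        exact hu ⟨fun h2 => absurd h2 huB, fun h2 => absurd h2 h⟩
      exact ⟨u + Pi.single i 1, h2, u, huB, ⟨i, Or.inr rfl⟩, Sym2.eq_swap⟩
  · rintro ⟨i, u⟩ _ ⟨j, v⟩ _ h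
    rcases Sym2.eq_iff.mp h with h2 | h2
    · have hu : u = v := h2.1
      have hi : u + Pi.single i (1 : ℤ) = v + Pi.single j 1 := h2.2
      subst hu
      have h3 := add_left_cancel hi
      have h4 : i = j := by
        by_contra hij
        have h5 := congrFun h3 i
        rw [Pi.single_eq_same, Pi.single_eq_of_ne hij] at h5
        exact one_ne_zero h5
      subst h4
      rfl
    · exfalso
      have h3 : u = v + Pi.single j (1 : ℤ) := h2.1
      have h4 : u + Pi.single i (1 : ℤ) = v := h2.2
      rw [h3] at h4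
      have h5 := congrFun h4 i
      rw [Pi.add_apply, Pi.add_apply, Pi.single_eq_same] at h5
      have h6 : (0 : ℤ) ≤ (Pi.single j (1 : ℤ) : Site d) i := by
        by_cases hij : i = j
        · subst hij
          rw [Pi.single_eq_same]
          norm_num
        · rw [Pi.single_eq_of_ne hij]
      omega

/-- a finite set is determined by its vertical boundary edges -/
theorem Sv_inj {B B' : Finset (Site d)} {i : Fin d} (h : Sv B i = Sv B' i) : B = B' := by
  have key : ∀ x : Site d, (x ∈ B ↔ x ∈ B') := by
    by_contra hcon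
    push Not at hcon
    obtain ⟨x, hx⟩ := hcon
    -- the difference propagates downwards
    have hprop : ∀ j : ℕ, ¬ (x - Pi.single i (j : ℤ) ∈ B ↔ x - Pi.single i (j : ℤ) ∈ B') := by
      intro j
      induction j with
      | zero =>
        simp only [Nat.cast_zero, Pi.single_zero, sub_zero]
        tauto
      | succ j ih =>
        intro h1
        apply ih
        set y := x - Pi.single i ((j + 1 : ℕ) : ℤ) with hy
        have h2 : x - Pi.single i (j : ℤ) = y + Pi.single i 1 := by
          rw [hy]
          push_cast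
          rw [Pi.single_add]
          abel
        rw [h2]
        have h3 : y ∈ Sv B i ↔ y ∈ Sv B' i := by rw [h]
        rw [mem_Sv, mem_Sv] at h3
        tauto
    obtain ⟨m, hm⟩ := exists_low (B ∪ B') i
    have h4 := hprop (x i - m + 1).toNat
    have h5 : (x - Pi.single i (((x i - m + 1).toNat : ℕ) : ℤ) : Site d) i < m := by
      rw [Pi.sub_apply, Pi.single_eq_same]
      have := Int.self_le_toNat (x i - m + 1)
      omega
    apply h4
    constructor
    · intro h6
      have := hm _ (Finset.mem_union_left _ h6)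
      omega
    · intro h6
      have := hm _ (Finset.mem_union_right _ h6)
      omega
  ext x
  exact key x

end Pool.T9h81.EAR
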