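import Pool.Agent.T9h81.EAR.Cost

/-!
# The number of finite connected sets with connected complement and given boundary size
-/

set_option autoImplicit false

open scoped Classical

namespace Pool.T9h81.EAR

variable {d : ℕ}

/-- `B` is a finite connected set with connected complement, containing `x`, with `n` boundary
edges. -/
def Contour (x : Site d) (n : ℕ) (B : Finset (Site d)) : Prop :=
  x ∈ B ∧ ConnSet (B : Set (Site d)) ∧ ConnSet {y | y ∉ B} ∧ (bdE (lat d) B).card = n

/-- the codes -/
noncomputable def codes (x : Site d) (n : ℕ) (i : Fin d) : Finset (Finset (Site d)) :=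
  (Finset.range n).biUnion fun h => (Finset.range (n / d + 1)).biUnion fun m =>
    (cw i (2 * m) (8 * n) (sh i x h)).image List.toFinset

theorem contour_code (hd : 2 ≤ d) (x : Site d) (n : ℕ) (B : Finset (Site d))
    (hB : Contour x n B) : ∃ i, d ≤ n ∧ Sv B i ∈ codes x n i := by
  obtain ⟨hx, hc1, hc2, hn⟩ := hB
  have hi : ∃ i : Fin d, d * (Sv B i).card ≤ n := by
    by_contra hcon
    push Not at hcon
    have h1 : ∑ i : Fin d, n < ∑ i : Fin d, d * (Sv B i).card := by
      apply Finset.sum_lt_sum_of_nonempty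
      · have : Nonempty (Fin d) := ⟨⟨0, by omega⟩⟩
        exact Finset.univ_nonempty
      · exact fun i _ => hcon i
    rw [← Finset.mul_sum, Finset.sum_const, Finset.card_univ, Fintype.card_fin, smul_eq_mul] at h1
    have h2 := sum_Sv B
    rw [hn] at h2
    have h3 : d * ∑ i, (Sv B i).card ≤ d * n := Nat.mul_le_mul_left d h2
    omega
  obtain ⟨i, hi⟩ := hi
  obtain ⟨h, hh, hroot⟩ := exists_root hd B i x hx
  have hpos : 0 < (Sv B i).card := Finset.card_pos.mpr ⟨_, hroot⟩
  have hdn : d ≤ n := le_trans (Nat.le_mul_of_pos_right d hpos) hi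
  refine ⟨i, hdn, ?_⟩
  obtain ⟨T, hTS, -, hT, l, hl, hlT⟩ := exists_code B i hc1 hc2 (cost B i)
    (fun u _ v _ r huv => link_le_cost B i u v r huv) (sh i x h) hroot ((Sv B i).card - 1)
    (by omega)
  have hTeq : T = Sv B i := Finset.eq_of_subset_of_card_le hTS (by omega)
  unfold codes
  rw [Finset.mem_biUnion]
  refine ⟨h, Finset.mem_range.mpr (hn ▸ hh), ?_⟩
  rw [Finset.mem_biUnion]
  refine ⟨(Sv B i).card - 1, ?_, ?_⟩
  · rw [Finset.mem_range]
    have h1 : (Sv B i).card ≤ n / d := by
      rw [Nat.le_div_iff_mul_le (by omega)]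
      rw [Nat.mul_comm]
      exact hi
    omega
  · rw [Finset.mem_image]
    refine ⟨l, ?_, by rw [hlT, hTeq]⟩
    apply cw_mono _ _ hl
    have h1 := sum_cost B i
    rw [hTeq]
    rw [hn] at h1
    omega

theorem card_cw_le (hd : 2 ≤ d) (i : Fin d) (m n : ℕ) (hm : m ≤ n / d) (x : Site d) :
    ((cw i (2 * m) (8 * n) x).card : ℝ) ≤
      Real.exp (24 * (n * Real.log d / d)) := by
  have hd' : (2 : ℝ) ≤ d := by exact_mod_cast hd
  have hd0 : (0 : ℝ) < d := by linarith
  have hlog2 : (0.69 : ℝ) < Real.log 2 := lt_trans (by norm_num) Real.log_two_gt_d9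
  have hlog : Real.log 2 ≤ Real.log d := Real.log_le_log (by norm_num) hd'
  set t : ℝ := 1 / (2 * d) with ht
  have ht0 : 0 < t := by positivity
  have ht1 : t ≤ 1 / 4 := by
    rw [ht]
    apply one_div_le_one_div_of_le (by norm_num)
    linarith
  have h1 := card_cw (d := d) i (1 - t) (by linarith) (by linarith) (2 * m) (8 * n) x
  have h2 : (((4 * d + 2 : ℕ) : ℝ) / (1 - (1 - t))) ≤ 10 * d ^ 2 := by
    have h3 : 1 - (1 - t) = t := by ring
    rw [h3, ht]
    push_cast
    rw [div_div_eq_mul_div, div_one]
    nlinarith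
  have h4 : (0 : ℝ) ≤ ((4 * d + 2 : ℕ) : ℝ) / (1 - (1 - t)) := by
    have h3 : 1 - (1 - t) = t := by ring
    rw [h3]
    positivity
  have hx : ((n / d : ℕ) : ℝ) ≤ n / d := Nat.cast_div_le
  have h5 : (10 * (d : ℝ) ^ 2) ^ (2 * m) ≤ Real.exp (12 * (n * Real.log d / d)) := by
    have h6 : (10 * (d : ℝ) ^ 2) ≤ Real.exp (6 * Real.log d) := by
      have h7 : Real.exp (6 * Real.log d) = (d : ℝ) ^ 6 := by
        have h8 : 6 * Real.log d = ((6 : ℕ) : ℝ) * Real.log d := by norm_num
        rw [h8, Real.exp_nat_mul, Real.exp_log hd0]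
      rw [h7]
      have h9 : (16 : ℝ) ≤ (d : ℝ) ^ 4 := by
        calc (16 : ℝ) = 2 ^ 4 := by norm_num
          _ ≤ (d : ℝ) ^ 4 := pow_le_pow_left₀ (by norm_num) hd' 4
      have h10 : (d : ℝ) ^ 6 = (d : ℝ) ^ 4 * (d : ℝ) ^ 2 := by ring
      rw [h10]
      apply mul_le_mul_of_nonneg_right _ (by positivity)
      linarith
    calc (10 * (d : ℝ) ^ 2) ^ (2 * m) ≤ (Real.exp (6 * Real.log d)) ^ (2 * m) :=
          pow_le_pow_left₀ (by positivity) h6 _
      _ = Real.exp (((2 * m : ℕ) : ℝ) * (6 * Real.log d)) := (Real.exp_nat_mul _ _).symm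
      _ ≤ Real.exp (12 * (n * Real.log d / d)) := by
          apply Real.exp_le_exp.mpr
          have h11 : (m : ℝ) ≤ n / d := (Nat.cast_le.mpr hm).trans hx
          push_cast
          have h12 : 12 * (n * Real.log d / d) = 2 * ((n : ℝ) / d) * (6 * Real.log d) := by ring
          rw [h12]
          apply mul_le_mul_of_nonneg_right _ (by linarith)
          linarith
  have h6 : ((1 - t) ^ (8 * n))⁻¹ ≤ Real.exp (12 * (n * Real.log d / d)) := by
    have h7 : (1 - t)⁻¹ ≤ Real.exp (2 * t) := by
      have h8 : (1 - t)⁻¹ = t / (1 - t) + 1 := by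
        rw [eq_comm, div_add_one (by linarith), add_sub_cancel, one_div]
      have h9 : t / (1 - t) ≤ 2 * t := by
        rw [div_le_iff₀ (by linarith)]
        nlinarith
      rw [h8]
      exact (Real.add_one_le_exp _).trans (Real.exp_le_exp.mpr h9)
    rw [← inv_pow]
    calc ((1 - t)⁻¹) ^ (8 * n) ≤ (Real.exp (2 * t)) ^ (8 * n) :=
          pow_le_pow_left₀ (inv_nonneg.mpr (by linarith)) h7 _
      _ = Real.exp (((8 * n : ℕ) : ℝ) * (2 * t)) := (Real.exp_nat_mul _ _).symm
      _ ≤ Real.exp (12 * (n * Real.log d / d)) := by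
          apply Real.exp_le_exp.mpr
          rw [ht]
          push_cast
          have h10 : 8 * (n : ℝ) * (2 * (1 / (2 * d))) = 8 * (n / d) := by
            field_simp
          have h11 : 12 * (n * Real.log d / d) = (12 * Real.log d) * ((n : ℝ) / d) := by ring
          rw [h10, h11]
          apply mul_le_mul_of_nonneg_right _ (by positivity)
          linarith
  have hpos : 0 < (1 - t) ^ (8 * n) := pow_pos (by linarith) _
  have h7 : ((cw i (2 * m) (8 * n) x).card : ℝ) ≤
      (((4 * d + 2 : ℕ) : ℝ) / (1 - (1 - t))) ^ (2 * m) * ((1 - t) ^ (8 * n))⁻¹ := by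
    rw [← div_eq_mul_inv, le_div_iff₀ hpos]
    exact h1
  calc ((cw i (2 * m) (8 * n) x).card : ℝ)
      ≤ (((4 * d + 2 : ℕ) : ℝ) / (1 - (1 - t))) ^ (2 * m) * ((1 - t) ^ (8 * n))⁻¹ := h7
    _ ≤ Real.exp (12 * (n * Real.log d / d)) * Real.exp (12 * (n * Real.log d / d)) := by
        apply mul_le_mul _ h6 (by positivity) (Real.exp_pos _).le
        exact (pow_le_pow_left₀ h4 h2 _).trans h5
    _ = Real.exp (24 * (n * Real.log d / d)) := by
        rw [← Real.exp_add]
        congr 1
        ring

/-- **Number of contours** -/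
theorem count_contours (hd : 2 ≤ d) (x : Site d) (n : ℕ) :
    ∃ 𝒞 : Finset (Finset (Site d)), (∀ B, B ∈ 𝒞 ↔ Contour x n B) ∧ (n < d → 𝒞 = ∅) ∧
      (𝒞.card : ℝ) ≤ Real.exp (32 * (n * Real.log d / d)) := by
  by_cases hnd : n < d
  · refine ⟨∅, fun B => ?_, fun _ => rfl, ?_⟩
    · constructor
      · intro h
        exact absurd h (Finset.notMem_empty B)
      · intro h
        obtain ⟨i, hi, _⟩ := contour_code hd x n B h
        omega
    · rw [Finset.card_empty, Nat.cast_zero]
      exact (Real.exp_pos _).le
  rw [not_lt] at hnd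
  let g : ((_ : Fin d) × Finset (Site d)) → Finset (Site d) := fun p =>
    if h : ∃ B, Sv B p.1 = p.2 then h.choose else ∅
  let U : Finset ((_ : Fin d) × Finset (Site d)) := Finset.univ.sigma fun i => codes x n i
  refine ⟨(U.image g).filter (Contour x n), fun B => ?_, fun h => absurd h (not_lt.mpr hnd), ?_⟩
  · rw [Finset.mem_filter]
    constructor
    · exact fun h => h.2
    · intro h
      refine ⟨?_, h⟩
      obtain ⟨i, _, hi⟩ := contour_code hd x n B h
      rw [Finset.mem_image]
      refine ⟨⟨i, Sv B i⟩, Finset.mem_sigma.mpr ⟨Finset.mem_univ i, hi⟩, ?_⟩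
      have hex : ∃ B', Sv B' i = Sv B i := ⟨B, rfl⟩
      show (if h : ∃ B', Sv B' i = Sv B i then h.choose else ∅) = B
      rw [dif_pos hex]
      exact Sv_inj hex.choose_spec
  · have h1 : (((U.image g).filter (Contour x n)).card : ℝ) ≤ U.card := by
      exact_mod_cast (Finset.card_filter_le _ _).trans Finset.card_image_le
    have h2 : (U.card : ℝ) ≤ d * (n * ((n / d + 1 : ℕ) *
        Real.exp (24 * (n * Real.log d / d)))) := by
      rw [Finset.card_sigma, Nat.cast_sum]
      calc ∑ i : Fin d, ((codes x n i).card : ℝ)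
          ≤ ∑ i : Fin d, (n * ((n / d + 1 : ℕ) * Real.exp (24 * (n * Real.log d / d)))) := by
            apply Finset.sum_le_sum
            intro i _
            unfold codes
            refine (Nat.cast_le.mpr Finset.card_biUnion_le).trans ?_
            rw [Nat.cast_sum]
            calc ∑ h ∈ Finset.range n, (((Finset.range (n / d + 1)).biUnion fun m =>
                  (cw i (2 * m) (8 * n) (sh i x h)).image List.toFinset).card : ℝ)
                ≤ ∑ h ∈ Finset.range n, ((n / d + 1 : ℕ) *
                    Real.exp (24 * (n * Real.log d / d))) := by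
                  apply Finset.sum_le_sum
                  intro h _
                  refine (Nat.cast_le.mpr Finset.card_biUnion_le).trans ?_
                  rw [Nat.cast_sum]
                  calc ∑ m ∈ Finset.range (n / d + 1),
                        (((cw i (2 * m) (8 * n) (sh i x h)).image List.toFinset).card : ℝ)
                      ≤ ∑ m ∈ Finset.range (n / d + 1),
                          Real.exp (24 * (n * Real.log d / d)) := by
                        apply Finset.sum_le_sum
                        intro m hm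
                        rw [Finset.mem_range] at hm
                        refine (Nat.cast_le.mpr Finset.card_image_le).trans ?_
                        exact card_cw_le hd i m n (by omega) _
                    _ = _ := by rw [Finset.sum_const, Finset.card_range, nsmul_eq_mul]
              _ = _ := by rw [Finset.sum_const, Finset.card_range, nsmul_eq_mul]
        _ = _ := by rw [Finset.sum_const, Finset.card_univ, Fintype.card_fin, nsmul_eq_mul]
    refine h1.trans (h2.trans ?_)
    -- the prefactor is at most `n ^ 3`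
    have hd' : (2 : ℝ) ≤ d := by exact_mod_cast hd
    have hd0 : (0 : ℝ) < d := by linarith
    have hnd' : (d : ℝ) ≤ n := by exact_mod_cast hnd
    have hn0 : (0 : ℝ) < n := by linarith
    have hlog2 : (0.69 : ℝ) < Real.log 2 := lt_trans (by norm_num) Real.log_two_gt_d9
    have hlog : Real.log 2 ≤ Real.log d := Real.log_le_log (by norm_num) hd'
    have hq : ((n / d + 1 : ℕ) : ℝ) ≤ n := by
      have h3 : n / d ≤ n / 2 := Nat.div_le_div_left hd (by norm_num)
      have h4 : n / d + 1 ≤ n := by omega
      exact_mod_cast h4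
    have h3 : (n : ℝ) ^ 3 ≤ Real.exp (8 * (n * Real.log d / d)) := by
      have h4 : (n : ℝ) ^ 3 = Real.exp (3 * Real.log n) := by
        have h8 : 3 * Real.log n = ((3 : ℕ) : ℝ) * Real.log n := by norm_num
        rw [h8, Real.exp_nat_mul, Real.exp_log hn0]
      rw [h4]
      apply Real.exp_le_exp.mpr
      set y : ℝ := n / d with hy
      have hy1 : 1 ≤ y := by
        rw [hy, le_div_iff₀ hd0]
        linarith
      have h5 : Real.log n = Real.log y + Real.log d := by
        rw [hy, Real.log_div hn0.ne' hd0.ne']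
        ring
      have h6 : Real.log y ≤ y - 1 := Real.log_le_sub_one_of_pos (by linarith)
      have h7 : 8 * (n * Real.log d / d) = 8 * (y * Real.log d) := by
        rw [hy]
        ring
      rw [h7, h5]
      nlinarith
    calc (d : ℝ) * (n * ((n / d + 1 : ℕ) * Real.exp (24 * (n * Real.log d / d))))
        ≤ n * (n * (n * Real.exp (24 * (n * Real.log d / d)))) := by
          apply mul_le_mul hnd' _ (by positivity) hn0.le
          apply mul_le_mul_of_nonneg_left _ hn0.le
          exact mul_le_mul_of_nonneg_right hq (Real.exp_pos _).le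
      _ = (n : ℝ) ^ 3 * Real.exp (24 * (n * Real.log d / d)) := by ring
      _ ≤ Real.exp (8 * (n * Real.log d / d)) * Real.exp (24 * (n * Real.log d / d)) :=
          mul_le_mul_of_nonneg_right h3 (Real.exp_pos _).le
      _ = Real.exp (32 * (n * Real.log d / d)) := by
          rw [← Real.exp_add]
          congr 1
          ring

end Pool.T9h81.EAR
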