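import Pool.Agent.T9h81.EAR.CountZ

/-!
# Boxes have connected complement; filling the holes of a finite connected set
-/

set_option autoImplicit false

open scoped Classical

namespace Pool.T9h81.EAR

variable {d : ℕ}

/-- moving freely along a coordinate direction -/
theorem move (X : Set (Site d)) (f : Site d → Bool)
    (hf : ∀ u ∈ X, ∀ v ∈ X, (lat d).Adj u v → f u = f v) (x : Site d) (k : Fin d)
    (hall : ∀ t, Function.update x k t ∈ X) (s : ℤ) : f x = f (Function.update x k s) := by
  have hstep : ∀ t : ℤ, f (Function.update x k t) = f (Function.update x k (t + 1)) := by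
    intro t
    apply hf _ (hall t) _ (hall (t + 1))
    refine ⟨k, Or.inl ?_⟩
    funext j
    rw [Pi.add_apply]
    by_cases hj : j = k
    · subst hj
      rw [Function.update_self, Function.update_self, Pi.single_eq_same]
    · rw [Function.update_of_ne hj, Function.update_of_ne hj, Pi.single_eq_of_ne hj, add_zero]
  have hall2 : ∀ t : ℤ, f (Function.update x k t) = f (Function.update x k 0) := by
    intro t
    induction t using Int.induction_on with
    | zero => rfl
    | succ i ih => rw [← hstep, ih]
    | pred i ih =>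
      rw [hstep]
      have : -(i : ℤ) - 1 + 1 = -(i : ℤ) := by ring
      rw [this, ih]
  calc f x = f (Function.update x k (x k)) := by rw [Function.update_eq_self]
    _ = f (Function.update x k 0) := hall2 _
    _ = f (Function.update x k s) := (hall2 s).symm

/-- moving several coordinates to the value `c` -/
theorem move_many (X : Set (Site d)) (f : Site d → Bool)
    (hf : ∀ u ∈ X, ∀ v ∈ X, (lat d).Adj u v → f u = f v) (x : Site d) (c : ℤ)
    (T : Finset (Fin d))
    (hall : ∀ y : Site d, (∀ k, k ∉ T → y k = x k) → y ∈ X) :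
    f x = f (fun k => if k ∈ T then c else x k) := by
  have key : ∀ T' ⊆ T, f x = f (fun k => if k ∈ T' then c else x k) := by
    intro T'
    induction T' using Finset.induction_on with
    | empty =>
      intro _
      simp
    | insert a T' ha ih =>
      intro hsub
      have hsub' : T' ⊆ T := (Finset.subset_insert a T').trans hsub
      rw [ih hsub', move X f hf _ a (fun t => ?_) c]
      · congr 1
        funext k
        by_cases hk : k = a
        · subst hk
          rw [Function.update_self, if_pos (Finset.mem_insert_self k T')]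
        · rw [Function.update_of_ne hk]
          by_cases hkT : k ∈ T'
          · rw [if_pos hkT, if_pos (Finset.mem_insert_of_mem hkT)]
          · rw [if_neg hkT, if_neg]
            intro h
            rcases Finset.mem_insert.mp h with h | h
            · exact hk h
            · exact hkT h
      · apply hall
        intro k hk
        have hka : k ≠ a := fun h => hk (h ▸ hsub (Finset.mem_insert_self a T'))
        rw [Function.update_of_ne hka, if_neg fun h => hk (hsub' h)]
  exact key T (Finset.Subset.refl T)

theorem conn_univ : ConnSet (Set.univ : Set (Site d)) := by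
  intro f hf u _ v _
  have h1 := move_many Set.univ f hf u 0 Finset.univ fun y _ => Set.mem_univ y
  have h2 := move_many Set.univ f hf v 0 Finset.univ fun y _ => Set.mem_univ y
  rw [h1, h2]
  simp

/-- the box `[-m, m]^d` -/
noncomputable def box (d m : ℕ) : Finset (Site d) :=
  Finset.Icc (fun _ => -(m : ℤ)) (fun _ => (m : ℤ))

theorem mem_box {m : ℕ} {x : Site d} : x ∈ box d m ↔ ∀ k, -(m : ℤ) ≤ x k ∧ x k ≤ m := by
  unfold box
  rw [Finset.mem_Icc, Pi.le_def, Pi.le_def]
  constructor
  · rintro ⟨h1, h2⟩ k
    exact ⟨h1 k, h2 k⟩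
  · intro h
    exact ⟨fun k => (h k).1, fun k => (h k).2⟩

theorem conn_compl_box (hd : 2 ≤ d) (m : ℕ) : ConnSet {x : Site d | x ∉ box d m} := by
  intro f hf
  have key : ∀ u : Site d, u ∉ box d m → f u = f (fun _ => (m : ℤ) + 1) := by
    intro u hu
    rw [mem_box] at hu
    push Not at hu
    obtain ⟨j, hj⟩ := hu
    have hj' : ∀ y : Site d, y j = u j → y ∉ box d m := by
      intro y hy h
      rw [mem_box] at h
      have h1 := h j
      rw [hy] at h1
      have := hj h1.1
      omega
    have h1 := move_many {x : Site d | x ∉ box d m} f hf u ((m : ℤ) + 1) (Finset.univ.erase j)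
      (fun y hy => hj' y (hy j (Finset.notMem_erase j _)))
    have hl : ∃ l : Fin d, l ≠ j := by
      have : Nontrivial (Fin d) := Fin.nontrivial_iff_two_le.mpr hd
      exact exists_ne j
    obtain ⟨l, hl⟩ := hl
    have h2 := move {x : Site d | x ∉ box d m} f hf
      (fun k => if k ∈ Finset.univ.erase j then (m : ℤ) + 1 else u k) j (fun t => by
        intro h
        rw [mem_box] at h
        have h3 := (h l).2
        rw [Function.update_of_ne hl, if_pos (Finset.mem_erase.mpr ⟨hl, Finset.mem_univ l⟩)] at h3
        omega) ((m : ℤ) + 1)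
    rw [h1, h2]
    congr 1
    funext k
    by_cases hk : k = j
    · subst hk
      rw [Function.update_self]
    · rw [Function.update_of_ne hk, if_pos (Finset.mem_erase.mpr ⟨hk, Finset.mem_univ k⟩)]
  intro u hu v hv
  rw [key u hu, key v hv]

/-- **Filling the holes** -/
theorem fill (Λ A : Finset (Site d)) (hΛ : ConnSet {x : Site d | x ∉ Λ})
    (hne : ∃ z : Site d, z ∉ Λ) (x : Site d) (hA : A ⊆ Λ)
    (hconn : IsConn (lat d) x A) :
    ∃ B ⊆ Λ, x ∈ B ∧ ConnSet (B : Set (Site d)) ∧ ConnSet {y | y ∉ B} ∧
      ∀ u ∈ B, ∀ v, v ∉ B → (lat d).Adj u v → u ∈ A ∧ v ∉ A := by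
  -- the largest set containing `A` whose boundary edges start in `A`
  let S : Finset (Finset (Site d)) := Λ.powerset.filter fun B => A ⊆ B ∧
    ∀ u ∈ B, ∀ v, v ∉ B → (lat d).Adj u v → u ∈ A
  let B : Finset (Site d) := S.biUnion id
  have hAS : A ∈ S := Finset.mem_filter.mpr ⟨Finset.mem_powerset.mpr hA, Finset.Subset.refl A,
    fun u hu _ _ _ => hu⟩
  have hAB : A ⊆ B := fun u hu => Finset.mem_biUnion.mpr ⟨A, hAS, hu⟩
  have hBΛ : B ⊆ Λ := by
    intro u hu
    obtain ⟨C, hC, huC⟩ := Finset.mem_biUnion.mp hu
    exact Finset.mem_powerset.mp (Finset.mem_filter.mp hC).1 huC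
  have hbd : ∀ u ∈ B, ∀ v, v ∉ B → (lat d).Adj u v → u ∈ A := by
    intro u hu v hv huv
    obtain ⟨C, hC, huC⟩ := Finset.mem_biUnion.mp hu
    refine (Finset.mem_filter.mp hC).2.2 u huC v ?_ huv
    exact fun h => hv (Finset.mem_biUnion.mpr ⟨C, hC, h⟩)
  have hxB : x ∈ B := hAB hconn.1
  refine ⟨B, hBΛ, hxB, ?_, ?_, fun u hu v hv huv => ⟨hbd u hu v hv huv, fun h => hv (hAB h)⟩⟩
  · -- `B` is connected
    intro f hf
    have hfA : ∀ y ∈ A, f y = f x := by
      have h1 := hconn.2 (A.filter fun y => f y = f x) (Finset.filter_subset _ _)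
        (Finset.mem_filter.mpr ⟨hconn.1, rfl⟩) (by
          intro u hu v hv huv
          rw [Finset.mem_filter] at hu ⊢
          refine ⟨hv, ?_⟩
          rw [← hu.2]
          exact (hf u (hAB hu.1) v (hAB hv) huv).symm)
      intro y hy
      rw [← h1] at hy
      exact (Finset.mem_filter.mp hy).2
    have hW := conn_univ (d := d) (fun y => decide (y ∈ B ∧ f y ≠ f x)) (by
      have key : ∀ u v : Site d, (lat d).Adj u v → (u ∈ B ∧ f u ≠ f x) → (v ∈ B ∧ f v ≠ f x) := by
        rintro u v huv ⟨h1, h2⟩
        have hvB : v ∈ B := by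
          by_contra hv
          exact h2 (hfA u (hbd u h1 v hv huv))
        refine ⟨hvB, ?_⟩
        rw [← hf u h1 v hvB huv]
        exact h2
      intro u _ v _ huv
      rw [decide_eq_decide]
      exact ⟨key u v huv, key v u huv.symm⟩)
    have hfx : ∀ y ∈ B, f y = f x := by
      intro y hy
      by_contra hne
      have h1 := hW y (Set.mem_univ y) x (Set.mem_univ x)
      rw [decide_eq_decide] at h1
      exact (h1.mp ⟨hy, hne⟩).2 rfl
    intro u hu v hv
    rw [hfx u hu, hfx v hv]
  · -- the complement is connected
    obtain ⟨z, hz⟩ := hne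
    intro f hf
    have hout : ∀ y : Site d, y ∉ Λ → f y = f z := by
      intro y hy
      refine hΛ f (fun u hu v hv huv => ?_) y hy z hz
      exact hf u (fun h => hu (hBΛ h)) v (fun h => hv (hBΛ h)) huv
    have hall : ∀ y : Site d, y ∉ B → f y = f z := by
      intro y hy
      by_contra hne
      -- enlarging `B`
      let W : Finset (Site d) := Λ.filter fun w => w ∉ B ∧ f w ≠ f z
      have hBW : B ∪ W ∈ S := by
        refine Finset.mem_filter.mpr ⟨Finset.mem_powerset.mpr (Finset.union_subset hBΛ
          (Finset.filter_subset _ _)), hAB.trans Finset.subset_union_left, ?_⟩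
        intro u hu v hv huv
        rw [Finset.mem_union, not_or] at hv
        rcases Finset.mem_union.mp hu with h | h
        · exact hbd u h v hv.1 huv
        · exfalso
          obtain ⟨h1, h2, h3⟩ := Finset.mem_filter.mp h
          have h4 : f u = f v := hf u h2 v hv.1 huv
          by_cases hvΛ : v ∈ Λ
          · apply hv.2
            refine Finset.mem_filter.mpr ⟨hvΛ, hv.1, ?_⟩
            rw [← h4]
            exact h3
          · exact h3 (h4.trans (hout v hvΛ))
      have hyΛ : y ∈ Λ := by
        by_contra h
        exact hne (hout y h)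
      exact hy (Finset.mem_biUnion.mpr ⟨B ∪ W, hBW, Finset.mem_union_right _
        (Finset.mem_filter.mpr ⟨hyΛ, hy, hne⟩)⟩)
    intro u hu v hv
    rw [hall u hu, hall v hv]

end Pool.T9h81.EAR
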