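import Mathlib

/-!
# Existence of a good point in an infinite family of weakly dependent local conditions
(real coordinates)
-/

set_option autoImplicit false

open MeasureTheory ProbabilityTheory Filter Topology
open scoped ENNReal Classical

namespace Pool.T9h81.EAR

/-- restriction to finitely many coordinates -/
def rst {ι : Type} (S : Finset ι) (ω : ι → ℝ) : S → ℝ := fun i => ω i

theorem measurable_rst {ι : Type} (S : Finset ι) : Measurable (rst S) := by
  rw [measurable_pi_iff]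
  exact fun i => measurable_pi_apply _

/-- `A` is determined by the coordinates in the finite set `S`. -/
def DepOn {ι : Type} (S : Finset ι) (A : Set (ι → ℝ)) : Prop :=
  MeasurableSet[MeasurableSpace.comap (rst S) inferInstance] A

section

variable {ι : Type}

theorem DepOn.exists {S : Finset ι} {A : Set (ι → ℝ)} (h : DepOn S A) :
    ∃ A' : Set (S → ℝ), MeasurableSet A' ∧ A = rst S ⁻¹' A' := by
  obtain ⟨A', h1, h2⟩ := h
  exact ⟨A', h1, h2.symm⟩

theorem depOn_of {S : Finset ι} {A : Set (ι → ℝ)} (A' : Set (S → ℝ)) (h : MeasurableSet A')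
    (h2 : A = rst S ⁻¹' A') : DepOn S A := ⟨A', h, h2.symm⟩

theorem DepOn.mono {S T : Finset ι} {A : Set (ι → ℝ)} (h : DepOn S A) (hST : S ⊆ T) :
    DepOn T A := by
  obtain ⟨A', h1, rfl⟩ := h.exists
  refine depOn_of ((fun (η : T → ℝ) (i : S) => η ⟨i.1, hST i.2⟩) ⁻¹' A') ?_ rfl
  apply MeasurableSet.preimage h1
  rw [measurable_pi_iff]
  exact fun i => measurable_pi_apply _

theorem DepOn.biUnion {κ : Type} {S : Finset ι} (F : Finset κ) {A : κ → Set (ι → ℝ)}
    (h : ∀ k ∈ F, DepOn S (A k)) : DepOn S (⋃ k ∈ F, A k) := by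
  unfold DepOn at *
  exact Finset.measurableSet_biUnion F h

theorem DepOn.biInter {κ : Type} {S : Finset ι} (F : Finset κ) {A : κ → Set (ι → ℝ)}
    (h : ∀ k ∈ F, DepOn S (A k)) : DepOn S (⋂ k ∈ F, A k) := by
  unfold DepOn at *
  exact Finset.measurableSet_biInter F h

variable (ν : ι → Measure ℝ) [∀ i, IsProbabilityMeasure (ν i)]

theorem indep2 {S T : Finset ι} (hST : Disjoint S T) {A B : Set (ι → ℝ)} (hA : DepOn S A)
    (hB : DepOn T B) :
    Measure.infinitePi ν (A ∩ B) = Measure.infinitePi ν A * Measure.infinitePi ν B := by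
  have h1 : iIndepFun (fun (i : ι) (ω : ι → ℝ) => ω i) (Measure.infinitePi ν) :=
    iIndepFun_infinitePi (X := fun _ b => b) fun _ => measurable_id
  have h2 := h1.indepFun_finset S T hST fun i => measurable_pi_apply i
  obtain ⟨A', hA1, rfl⟩ := hA.exists
  obtain ⟨B', hB1, rfl⟩ := hB.exists
  exact h2.measure_inter_preimage_eq_mul _ _ hA1 hB1

theorem exists_far {X : Type} [Infinite X] (L : X → Set (ι → ℝ)) (S : X → Finset ι)
    (hdep : ∀ x, DepOn (S x) (L x)) (δ : ℝ≥0∞) (hδ : ∀ x, Measure.infinitePi ν (L x) ≤ δ)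
    (hloc : ∀ i : ι, {x | i ∈ S x}.Finite) (j : ℕ) :
    ∃ s : Finset X, s.card = j ∧ Measure.infinitePi ν (⋂ x ∈ s, L x) ≤ δ ^ j := by
  induction j with
  | zero => exact ⟨∅, rfl, by simp⟩
  | succ j ih =>
    obtain ⟨s, hs, h1⟩ := ih
    have hfin : ((s : Set X) ∪ ⋃ i ∈ s.biUnion S, {x | i ∈ S x}).Finite :=
      s.finite_toSet.union (Set.Finite.biUnion (s.biUnion S).finite_toSet fun i _ => hloc i)
    obtain ⟨x, hx⟩ := hfin.exists_notMem
    rw [Set.mem_union, not_or] at hx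
    have hxs : x ∉ s := fun h => hx.1 h
    have hdisj : Disjoint (s.biUnion S) (S x) := by
      rw [Finset.disjoint_left]
      intro i hi hi2
      exact hx.2 (Set.mem_biUnion (show i ∈ (s.biUnion S : Set ι) from hi) hi2)
    refine ⟨insert x s, by rw [Finset.card_insert_of_notMem hxs, hs], ?_⟩
    have h2 : DepOn (s.biUnion S) (⋂ y ∈ s, L y) :=
      DepOn.biInter s fun y hy => (hdep y).mono (Finset.subset_biUnion_of_mem S hy)
    rw [Finset.set_biInter_insert, Set.inter_comm, indep2 ν hdisj h2 (hdep x), pow_succ]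
    exact mul_le_mul' h1 (hδ x)

/-- **Existence of a good point.**  `Bad x n` is a local condition, of probability at most `w n`
uniformly in `x`, with `∑ w n < 1`; then almost surely some `x` avoids all its bad conditions. -/
theorem exists_good {X : Type} [Infinite X] [Countable X] (Bad : X → ℕ → Set (ι → ℝ))
    (S : X → ℕ → Finset ι) (hdep : ∀ x n, DepOn (S x n) (Bad x n)) (w : ℕ → ℝ≥0∞)
    (hw : ∀ x n, Measure.infinitePi ν (Bad x n) ≤ w n) (hsum : ∑' n, w n < 1)
    (hloc : ∀ n (i : ι), {x | i ∈ S x n}.Finite) :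
    ∀ᵐ ω ∂(Measure.infinitePi ν), ∃ x, ∀ n, ω ∉ Bad x n := by
  set μ := Measure.infinitePi ν with hμ
  set δ := ∑' n, w n with hδ
  rw [ae_iff]
  have hkey : ∀ m j : ℕ, μ {ω | ¬ ∃ x, ∀ n, ω ∉ Bad x n} ≤ δ ^ j + j * ∑' n, w (n + m) := by
    intro m j
    let L : X → Set (ι → ℝ) := fun x => ⋃ n ∈ Finset.range m, Bad x n
    let S' : X → Finset ι := fun x => (Finset.range m).biUnion (S x)
    have hL : ∀ x, DepOn (S' x) (L x) := fun x =>
      DepOn.biUnion _ fun n hn => (hdep x n).mono (Finset.subset_biUnion_of_mem (S x) hn)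
    have hLδ : ∀ x, μ (L x) ≤ δ := by
      intro x
      calc μ (L x) ≤ ∑ n ∈ Finset.range m, μ (Bad x n) := measure_biUnion_finset_le _ _
        _ ≤ ∑ n ∈ Finset.range m, w n := Finset.sum_le_sum fun n _ => hw x n
        _ ≤ δ := ENNReal.sum_le_tsum _
    have hloc' : ∀ i : ι, {x | i ∈ S' x}.Finite := by
      intro i
      have : {x | i ∈ S' x} ⊆ ⋃ n ∈ Finset.range m, {x | i ∈ S x n} := by
        intro x hx
        obtain ⟨n, hn, h2⟩ := Finset.mem_biUnion.mp hx
        exact Set.mem_iUnion₂.mpr ⟨n, hn, h2⟩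
      exact (Set.Finite.biUnion (Finset.range m).finite_toSet fun n _ => hloc n i).subset this
    obtain ⟨s, hs, h1⟩ := exists_far ν L S' hL δ hLδ hloc' j
    let T : X → Set (ι → ℝ) := fun x => ⋃ n : ℕ, Bad x (n + m)
    have hT : ∀ x, μ (T x) ≤ ∑' n, w (n + m) := by
      intro x
      calc μ (T x) ≤ ∑' n, μ (Bad x (n + m)) := measure_iUnion_le _
        _ ≤ ∑' n, w (n + m) := ENNReal.tsum_le_tsum fun n => hw x _
    have hsub : {ω | ¬ ∃ x, ∀ n, ω ∉ Bad x n} ⊆ (⋂ x ∈ s, L x) ∪ ⋃ x ∈ s, T x := by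
      intro ω hω
      by_cases hT : ω ∈ ⋃ x ∈ s, T x
      · exact Or.inr hT
      · left
        rw [Set.mem_iInter₂]
        intro x hx
        simp only [Set.mem_ofPred_eq, not_exists, not_forall, not_not] at hω
        obtain ⟨n, hn⟩ := hω x
        by_cases hnm : n < m
        · exact Set.mem_iUnion₂.mpr ⟨n, Finset.mem_range.mpr hnm, hn⟩
        · exfalso
          apply hT
          refine Set.mem_iUnion₂.mpr ⟨x, hx, Set.mem_iUnion.mpr ⟨n - m, ?_⟩⟩
          rw [Nat.sub_add_cancel (not_lt.mp hnm)]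
          exact hn
    calc μ {ω | ¬ ∃ x, ∀ n, ω ∉ Bad x n} ≤ μ ((⋂ x ∈ s, L x) ∪ ⋃ x ∈ s, T x) :=
          measure_mono hsub
      _ ≤ μ (⋂ x ∈ s, L x) + μ (⋃ x ∈ s, T x) := measure_union_le _ _
      _ ≤ δ ^ j + ∑ x ∈ s, μ (T x) := add_le_add h1 (measure_biUnion_finset_le _ _)
      _ ≤ δ ^ j + ∑ x ∈ s, ∑' n, w (n + m) :=
          add_le_add le_rfl (Finset.sum_le_sum fun x _ => hT x)
      _ = δ ^ j + j * ∑' n, w (n + m) := by rw [Finset.sum_const, hs, nsmul_eq_mul]
  have hfin : ∑' n, w n ≠ ∞ := ne_top_of_lt hsum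
  have htail : Tendsto (fun m => ∑' n, w (n + m)) atTop (𝓝 0) :=
    ENNReal.tendsto_sum_nat_add w hfin
  have h1 : ∀ j : ℕ, μ {ω | ¬ ∃ x, ∀ n, ω ∉ Bad x n} ≤ δ ^ j := by
    intro j
    have h2 : Tendsto (fun m => δ ^ j + (j : ℝ≥0∞) * ∑' n, w (n + m)) atTop
        (𝓝 (δ ^ j + (j : ℝ≥0∞) * 0)) := by
      apply Tendsto.add tendsto_const_nhds
      exact ENNReal.Tendsto.const_mul htail (Or.inr (ENNReal.natCast_ne_top j))
    rw [mul_zero, add_zero] at h2
    exact ge_of_tendsto h2 (Eventually.of_forall fun m => hkey m j)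
  have h3 : Tendsto (fun j : ℕ => δ ^ j) atTop (𝓝 0) :=
    ENNReal.tendsto_pow_atTop_nhds_zero_of_lt_one hsum
  exact le_antisymm (ge_of_tendsto h3 (Eventually.of_forall h1)) zero_le

/-- lower tail of a sum of independent sub-Gaussian couplings -/
theorem subg_tail (m : ℝ) (hm : ∀ i, m ≤ ∫ x, x ∂(ν i))
    (hsub : ∀ i, HasSubgaussianMGF (fun x => x - ∫ y, y ∂(ν i)) 1 (ν i)) (S : Finset ι)
    (ε : ℝ) (hε : 0 ≤ ε) :
    (Measure.infinitePi ν).real {ω | ∑ i ∈ S, ω i ≤ S.card * m - ε} ≤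
      Real.exp (-ε ^ 2 / (2 * S.card)) := by
  set μ := Measure.infinitePi ν with hμ
  let X : ι → (ι → ℝ) → ℝ := fun i ω => -(ω i - ∫ y, y ∂(ν i))
  have hind : iIndepFun X μ :=
    iIndepFun_infinitePi (X := fun i b => -(b - ∫ y, y ∂(ν i))) fun i =>
      (measurable_id.sub measurable_const).neg
  have hs : ∀ i ∈ S, HasSubgaussianMGF (X i) 1 μ := by
    intro i _
    have h1 : HasSubgaussianMGF (fun ω : ι → ℝ => ω i - ∫ y, y ∂(ν i)) 1 μ := by
      have h2 := hsub i
      have h3 : μ.map (fun ω : ι → ℝ => ω i) = ν i := Measure.infinitePi_map_eval ν i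
      rw [← h3] at h2
      have h4 := HasSubgaussianMGF.of_map (μ := μ) (Y := fun ω : ι → ℝ => ω i)
        (measurable_pi_apply i).aemeasurable h2
      rw [h3] at h4
      exact h4
    exact h1.neg
  have h5 := HasSubgaussianMGF.measure_sum_ge_le_of_iIndepFun hind (c := fun _ => 1) (s := S)
    hs hε
  have h6 : {ω : ι → ℝ | ∑ i ∈ S, ω i ≤ S.card * m - ε} ⊆ {ω | ε ≤ ∑ i ∈ S, X i ω} := by
    intro ω hω
    have hω' : ∑ i ∈ S, ω i ≤ S.card * m - ε := hω
    show ε ≤ ∑ i ∈ S, -(ω i - ∫ y, y ∂(ν i))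
    rw [Finset.sum_neg_distrib, Finset.sum_sub_distrib]
    have h7 : S.card * m ≤ ∑ i ∈ S, ∫ y, y ∂(ν i) := by
      calc S.card * m = ∑ i ∈ S, m := by rw [Finset.sum_const, nsmul_eq_mul]
        _ ≤ _ := Finset.sum_le_sum fun i _ => hm i
    linarith
  refine (measureReal_mono h6).trans (h5.trans (le_of_eq ?_))
  simp

end

end Pool.T9h81.EAR
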