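import Pool.Agent.T9h81.EAR.Peierls

/-!
# The hypercubic lattice; vertical boundary edges of a finite set and their links
-/

set_option autoImplicit false

open scoped Classical

namespace Pool.T9h81.EAR

/-- Sites of `ℤ^d`. -/
abbrev Site (d : ℕ) : Type := Fin d → ℤ

/-- The hypercubic lattice: two sites are adjacent if they differ by a unit vector. -/
def lat (d : ℕ) : SimpleGraph (Site d) where
  Adj x y := ∃ k, y = x + Pi.single k 1 ∨ x = y + Pi.single k 1
  symm := ⟨by
    rintro x y ⟨k, h | h⟩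
    · exact ⟨k, Or.inr h⟩
    · exact ⟨k, Or.inl h⟩⟩
  loopless := ⟨by
    rintro x ⟨k, h | h⟩
    · have := congrFun h k
      simp at this
    · have := congrFun h k
      simp at this⟩

theorem adj_iff {d : ℕ} {x y : Site d} :
    (lat d).Adj x y ↔ ∃ k, y = x + Pi.single k 1 ∨ x = y + Pi.single k 1 := Iff.rfl

theorem neighbor_finite (d : ℕ) (x : Site d) : ((lat d).neighborSet x).Finite := by
  apply Set.Finite.subset (Finset.finite_toSet
    ((Finset.univ.image fun k : Fin d => x + Pi.single k 1) ∪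
      (Finset.univ.image fun k : Fin d => x - Pi.single k 1)))
  rintro y ⟨k, h | h⟩
  · rw [Finset.coe_union]
    left
    rw [Finset.mem_coe, Finset.mem_image]
    exact ⟨k, Finset.mem_univ k, h.symm⟩
  · rw [Finset.coe_union]
    right
    rw [Finset.mem_coe, Finset.mem_image]
    exact ⟨k, Finset.mem_univ k, by rw [h]; simp⟩

noncomputable instance (d : ℕ) : (lat d).LocallyFinite := fun x => (neighbor_finite d x).fintype

variable {d : ℕ}

/-- vertical shift -/
def sh (i : Fin d) (u : Site d) (j : ℕ) : Site d := u + Pi.single i (j : ℤ)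

theorem sh_zero (i : Fin d) (u : Site d) : sh i u 0 = u := by simp [sh]

theorem sh_succ (i : Fin d) (u : Site d) (j : ℕ) : sh i u (j + 1) = sh i u j + Pi.single i 1 := by
  unfold sh
  rw [add_assoc, ← Pi.single_add]
  push_cast
  rfl

theorem sh_sh (i : Fin d) (u : Site d) (p j : ℕ) : sh i (sh i u p) j = sh i u (p + j) := by
  unfold sh
  rw [add_assoc, ← Pi.single_add]
  push_cast
  rfl

theorem sh_add (i : Fin d) (u κ : Site d) (j : ℕ) : sh i (u + κ) j = sh i u j + κ := by
  unfold sh
  abel

theorem sh_inj {i : Fin d} {u v : Site d} {j : ℕ} (h : sh i u j = sh i v j) : u = v := by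
  unfold sh at h
  exact add_right_cancel h

/-- horizontal unit vectors -/
def HU (i : Fin d) (κ : Site d) : Prop :=
  ∃ k, k ≠ i ∧ (κ = Pi.single k 1 ∨ κ = -Pi.single k 1)

theorem HU.neg {i : Fin d} {κ : Site d} (h : HU i κ) : HU i (-κ) := by
  obtain ⟨k, hk, h | h⟩ := h
  · exact ⟨k, hk, Or.inr (by rw [h])⟩
  · exact ⟨k, hk, Or.inl (by rw [h, neg_neg])⟩

theorem HU.adj {i : Fin d} {κ : Site d} (h : HU i κ) (x : Site d) : (lat d).Adj x (x + κ) := by
  obtain ⟨k, -, h | h⟩ := h
  · exact ⟨k, Or.inl (by rw [h])⟩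
  · exact ⟨k, Or.inr (by rw [h]; simp)⟩

theorem HU.apply {i : Fin d} {κ : Site d} (h : HU i κ) : κ i = 0 := by
  obtain ⟨k, hk, h | h⟩ := h
  · rw [h]
    exact Pi.single_eq_of_ne hk.symm _
  · rw [h, Pi.neg_apply, Pi.single_eq_of_ne hk.symm, neg_zero]

/-- lower endpoints of the vertical boundary edges of `B` -/
noncomputable def Sv (B : Finset (Site d)) (i : Fin d) : Finset (Site d) :=
  (B ∪ B.image (fun u => u - Pi.single i 1)).filter fun u => ¬ (u ∈ B ↔ u + Pi.single i 1 ∈ B)

theorem mem_Sv {B : Finset (Site d)} {i : Fin d} {u : Site d} :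
    u ∈ Sv B i ↔ ¬ (u ∈ B ↔ u + Pi.single i 1 ∈ B) := by
  unfold Sv
  rw [Finset.mem_filter]
  constructor
  · exact fun h => h.2
  · intro h
    refine ⟨?_, h⟩
    rw [Finset.mem_union, Finset.mem_image]
    by_cases hu : u ∈ B
    · exact Or.inl hu
    · right
      refine ⟨u + Pi.single i 1, ?_, by simp⟩
      by_contra h2
      exact h ⟨fun h3 => absurd h3 hu, fun h3 => absurd h3 h2⟩

/-- upward link of length `r` between two vertical boundary edges: they bound, in the strip
between two neighbouring vertical lines, a run of `r` horizontal boundary edges which is not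
interrupted by a vertical boundary edge; for `r = 0` they are at the same height on
neighbouring lines. -/
def Up (B : Finset (Site d)) (i : Fin d) (r : ℕ) (u v : Site d) : Prop :=
  ∃ κ, HU i κ ∧ ((r = 0 ∧ v = u + κ) ∨
    (1 ≤ r ∧ (v = sh i u r ∨ v = sh i u r + κ) ∧
      (∀ j, 1 ≤ j → j ≤ r → ¬ (sh i u j ∈ B ↔ sh i u j + κ ∈ B)) ∧
      ∀ j, 1 ≤ j → j < r → sh i u j ∉ Sv B i ∧ sh i u j + κ ∉ Sv B i))

/-- `X` is connected: locally constant functions on `X` are constant. -/
def ConnSet (X : Set (Site d)) : Prop :=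
  ∀ f : Site d → Bool, (∀ u ∈ X, ∀ v ∈ X, (lat d).Adj u v → f u = f v) →
    ∀ u ∈ X, ∀ v ∈ X, f u = f v

/-- parity of the number of elements of `S₁` strictly below `x` on the vertical line of `x` -/
noncomputable def below (S₁ : Finset (Site d)) (i : Fin d) (x : Site d) : Finset (Site d) :=
  S₁.filter fun u => (∀ k, k ≠ i → u k = x k) ∧ u i < x i

noncomputable def par (S₁ : Finset (Site d)) (i : Fin d) (x : Site d) : Bool :=
  decide (Odd (below S₁ i x).card)

theorem below_up (S₁ : Finset (Site d)) (i : Fin d) (x : Site d) :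
    below S₁ i (x + Pi.single i 1) = if x ∈ S₁ then insert x (below S₁ i x) else below S₁ i x := by
  have key : ∀ u : Site d, ((∀ k, k ≠ i → u k = (x + Pi.single i 1 : Site d) k) ∧
      u i < (x + Pi.single i 1 : Site d) i) ↔
      (((∀ k, k ≠ i → u k = x k) ∧ u i < x i) ∨ u = x) := by
    intro u
    have h1 : ∀ k, k ≠ i → (x + Pi.single i 1 : Site d) k = x k := by
      intro k hk
      rw [Pi.add_apply, Pi.single_eq_of_ne hk, add_zero]
    have h2 : (x + Pi.single i 1 : Site d) i = x i + 1 := by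
      rw [Pi.add_apply, Pi.single_eq_same]
    constructor
    · rintro ⟨h3, h4⟩
      have h3' : ∀ k, k ≠ i → u k = x k := fun k hk => (h3 k hk).trans (h1 k hk)
      rw [h2] at h4
      by_cases h5 : u i < x i
      · exact Or.inl ⟨h3', h5⟩
      · right
        funext k
        by_cases hk : k = i
        · subst hk
          omega
        · exact h3' k hk
    · rintro (⟨h3, h4⟩ | rfl)
      · refine ⟨fun k hk => (h3 k hk).trans (h1 k hk).symm, ?_⟩
        rw [h2]
        omega
      · refine ⟨fun k hk => (h1 k hk).symm, ?_⟩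
        rw [h2]
        omega
  unfold below
  ext u
  rw [Finset.mem_filter, key u]
  by_cases hx : x ∈ S₁
  · rw [if_pos hx, Finset.mem_insert, Finset.mem_filter]
    constructor
    · rintro ⟨h1, h2 | h2⟩
      · exact Or.inr ⟨h1, h2⟩
      · exact Or.inl h2
    · rintro (h1 | h1)
      · exact ⟨h1 ▸ hx, Or.inr h1⟩
      · exact ⟨h1.1, Or.inl h1.2⟩
  · rw [if_neg hx, Finset.mem_filter]
    constructor
    · rintro ⟨h1, h2 | h2⟩
      · exact ⟨h1, h2⟩
      · exact absurd (h2 ▸ h1) hx
    · rintro ⟨h1, h2⟩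
      exact ⟨h1, Or.inl h2⟩

theorem par_up (S₁ : Finset (Site d)) (i : Fin d) (x : Site d) :
    par S₁ i (x + Pi.single i 1) = xor (par S₁ i x) (decide (x ∈ S₁)) := by
  unfold par
  rw [below_up]
  by_cases hx : x ∈ S₁
  · rw [if_pos hx]
    have hnot : x ∉ below S₁ i x := by
      intro h
      have := (Finset.mem_filter.mp h).2.2
      omega
    rw [Finset.card_insert_of_notMem hnot]
    by_cases ho : Odd (below S₁ i x).card
    · have h2 : ¬ Odd ((below S₁ i x).card + 1) := by
        rw [Nat.not_odd_iff_even]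
        exact ho.add_one
      simp [ho, h2, hx]
    · have h2 : Odd ((below S₁ i x).card + 1) := (Nat.not_odd_iff_even.mp ho).add_one
      simp [ho, h2, hx]
  · rw [if_neg hx]
    simp [hx]

theorem par_low (S₁ : Finset (Site d)) (i : Fin d) (x : Site d) (h : ∀ u ∈ S₁, x i ≤ u i) :
    par S₁ i x = false := by
  unfold par
  have : below S₁ i x = ∅ := by
    unfold below
    rw [Finset.filter_eq_empty_iff]
    rintro u hu ⟨_, h2⟩
    have := h u hu
    omega
  rw [this]
  simp

theorem q1 {a b a' b' : Prop} (h1 : ¬ (a ↔ a')) (h2 : ¬ (b ↔ b')) : (a' ↔ b') ↔ (a ↔ b) := by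
  tauto

theorem q2 {a b a' b' : Prop} (h1 : ¬ (a ↔ a')) (h2 : b ↔ b') : (a' ↔ b') ↔ ¬ (a ↔ b) := by
  tauto

theorem q3 {a b a' b' : Prop} (h1 : a ↔ a') (h2 : ¬ (b ↔ b')) : (a' ↔ b') ↔ ¬ (a ↔ b) := by
  tauto

theorem q4 {a b a' b' : Prop} (h1 : a ↔ a') (h2 : b ↔ b') : (a' ↔ b') ↔ (a ↔ b) := by
  tauto

theorem c1 (p q s : Bool) : (xor p s ≠ xor q s) ↔ p ≠ q := by
  cases p <;> cases q <;> cases s <;> decide

theorem c2 (p q s : Bool) (h : p ≠ q ↔ s = true) : xor p s = xor q false := by
  revert h
  cases p <;> cases q <;> cases s <;> decide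

theorem c3 (p q s : Bool) (h : p ≠ q ↔ s = true) : xor p false = xor q s := by
  revert h
  cases p <;> cases q <;> cases s <;> decide

theorem c4 (p s : Bool) : (xor p s ≠ xor p false) ↔ s = true := by
  cases p <;> cases s <;> decide

theorem c5 (p s : Bool) : (xor p false ≠ xor p s) ↔ s = true := by
  cases p <;> cases s <;> decide

/-- **Key invariant along a strip** -/
theorem strip (B S₁ : Finset (Site d)) (i : Fin d)
    (hcl : ∀ u ∈ Sv B i, ∀ v ∈ Sv B i, ∀ r, Up B i r u v → (u ∈ S₁ ↔ v ∈ S₁))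
    (hS : S₁ ⊆ Sv B i) (κ : Site d) (hκ : HU i κ) (b : Site d)
    (hb1 : b ∉ B) (hb2 : b + κ ∉ B) (hb3 : par S₁ i b = false) (hb4 : par S₁ i (b + κ) = false)
    (n : ℕ) :
    ((sh i b n ∈ B ↔ sh i b n + κ ∈ B) ∧ par S₁ i (sh i b n) = par S₁ i (sh i b n + κ)) ∨
    (¬ (sh i b n ∈ B ↔ sh i b n + κ ∈ B) ∧ ∃ p r, p + r = n ∧ 1 ≤ r ∧ ∃ u ∈ Sv B i,
      (u = sh i b p ∨ u = sh i b p + κ) ∧
      (∀ j, 1 ≤ j → j ≤ r → ¬ (sh i b (p + j) ∈ B ↔ sh i b (p + j) + κ ∈ B)) ∧
      (∀ j, 1 ≤ j → j < r → sh i b (p + j) ∉ Sv B i ∧ sh i b (p + j) + κ ∉ Sv B i) ∧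
      (par S₁ i (sh i b n) ≠ par S₁ i (sh i b n + κ) ↔ u ∈ S₁)) := by
  -- links between the bottom and the top of a run
  have hlink : ∀ p r : ℕ, 1 ≤ r → ∀ u ∈ Sv B i, (u = sh i b p ∨ u = sh i b p + κ) →
      (∀ j, 1 ≤ j → j ≤ r → ¬ (sh i b (p + j) ∈ B ↔ sh i b (p + j) + κ ∈ B)) →
      (∀ j, 1 ≤ j → j < r → sh i b (p + j) ∉ Sv B i ∧ sh i b (p + j) + κ ∉ Sv B i) →
      ∀ v ∈ Sv B i, (v = sh i b (p + r) ∨ v = sh i b (p + r) + κ) → (u ∈ S₁ ↔ v ∈ S₁) := by
    intro p r hr u hu hup h1 h2 v hv hvp
    apply hcl u hu v hv r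
    rcases hup with hup | hup
    · refine ⟨κ, hκ, Or.inr ⟨hr, ?_, ?_, ?_⟩⟩
      · rw [hup, sh_sh]
        exact hvp
      · intro j hj1 hj2
        rw [hup, sh_sh]
        exact h1 j hj1 hj2
      · intro j hj1 hj2
        rw [hup, sh_sh]
        exact h2 j hj1 hj2
    · refine ⟨-κ, hκ.neg, Or.inr ⟨hr, ?_, ?_, ?_⟩⟩
      · rw [hup, sh_add, sh_sh]
        rcases hvp with hvp | hvp
        · right
          rw [hvp]
          abel
        · exact Or.inl hvp
      · intro j hj1 hj2
        rw [hup, sh_add, sh_sh]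
        intro h3
        apply h1 j hj1 hj2
        have h4 : sh i b (p + j) + κ + -κ = sh i b (p + j) := by abel
        rw [h4] at h3
        exact h3.symm
      · intro j hj1 hj2
        rw [hup, sh_add, sh_sh]
        have h4 : sh i b (p + j) + κ + -κ = sh i b (p + j) := by abel
        rw [h4]
        exact (h2 j hj1 hj2).symm
  have hhor : ∀ x : Site d, x ∈ Sv B i → x + κ ∈ Sv B i → (x ∈ S₁ ↔ x + κ ∈ S₁) := by
    intro x hx hy
    exact hcl x hx _ hy 0 ⟨κ, hκ, Or.inl ⟨rfl, rfl⟩⟩
  induction n with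
  | zero =>
    left
    rw [sh_zero, hb3, hb4]
    exact ⟨⟨fun h => absurd h hb1, fun h => absurd h hb2⟩, rfl⟩
  | succ n ih =>
    set x := sh i b n with hx
    have hx1 : sh i b (n + 1) = x + Pi.single i 1 := sh_succ i b n
    have hy1 : sh i b (n + 1) + κ = (x + κ) + Pi.single i 1 := by
      rw [hx1]
      abel
    have hparx : par S₁ i (sh i b (n + 1)) = xor (par S₁ i x) (decide (x ∈ S₁)) := by
      rw [hx1, par_up]
    have hpary : par S₁ i (sh i b (n + 1) + κ) =
        xor (par S₁ i (x + κ)) (decide (x + κ ∈ S₁)) := by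
      rw [hy1, par_up]
    by_cases hxS : x ∈ Sv B i
    · have hxB : ¬ (x ∈ B ↔ sh i b (n + 1) ∈ B) := by
        rw [hx1]
        exact mem_Sv.mp hxS
      by_cases hyS : x + κ ∈ Sv B i
      · -- both vertical edges
        have hyB : ¬ (x + κ ∈ B ↔ sh i b (n + 1) + κ ∈ B) := by
          rw [hy1]
          exact mem_Sv.mp hyS
        have hh := hhor x hxS hyS
        have hdec : decide (x ∈ S₁) = decide (x + κ ∈ S₁) := by
          rw [decide_eq_decide]
          exact hh
        have hq := q1 hxB hyB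
        rcases ih with ⟨h1, h2⟩ | ⟨h1, p, r, hpr, hr, u, hu, hup, h3, h4, h5⟩
        · left
          refine ⟨hq.mpr h1, ?_⟩
          rw [hparx, hpary, h2, hdec]
        · right
          refine ⟨fun h => h1 (hq.mp h), n, 1, rfl, le_rfl, x, hxS, Or.inl rfl, ?_, ?_, ?_⟩
          · intro j hj1 hj2
            have hj : j = 1 := by omega
            rw [hj]
            exact fun h => h1 (hq.mp h)
          · intro j hj1 hj2
            omega
          · have h6 : u ∈ S₁ ↔ x ∈ S₁ := by
              refine hlink p r hr u hu hup h3 h4 x hxS (Or.inl ?_)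
              rw [hpr]
            rw [hparx, hpary, ← hdec, c1]
            exact h5.trans h6
      · -- vertical edge on the first line only
        have hyB : (x + κ ∈ B ↔ sh i b (n + 1) + κ ∈ B) := by
          rw [hy1]
          by_contra h
          exact hyS (mem_Sv.mpr h)
        have hyS1 : x + κ ∉ S₁ := fun h => hyS (hS h)
        have hdec : decide (x + κ ∈ S₁) = false := decide_eq_false hyS1
        have hq := q2 hxB hyB
        rcases ih with ⟨h1, h2⟩ | ⟨h1, p, r, hpr, hr, u, hu, hup, h3, h4, h5⟩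
        · right
          refine ⟨fun h => hq.mp h h1, n, 1, rfl, le_rfl, x, hxS, Or.inl rfl, ?_, ?_, ?_⟩
          · intro j hj1 hj2
            have hj : j = 1 := by omega
            rw [hj]
            exact fun h => hq.mp h h1
          · intro j hj1 hj2
            omega
          · rw [hparx, hpary, h2, hdec, c4, decide_eq_true_iff]
        · left
          have h6 : u ∈ S₁ ↔ x ∈ S₁ := by
            refine hlink p r hr u hu hup h3 h4 x hxS (Or.inl ?_)
            rw [hpr]
          refine ⟨hq.mpr h1, ?_⟩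
          rw [hparx, hpary, hdec]
          apply c2
          rw [decide_eq_true_iff]
          exact h5.trans h6
    · have hxB : (x ∈ B ↔ sh i b (n + 1) ∈ B) := by
        rw [hx1]
        by_contra h
        exact hxS (mem_Sv.mpr h)
      have hxS1 : x ∉ S₁ := fun h => hxS (hS h)
      have hdec : decide (x ∈ S₁) = false := decide_eq_false hxS1
      by_cases hyS : x + κ ∈ Sv B i
      · -- vertical edge on the second line only
        have hyB : ¬ (x + κ ∈ B ↔ sh i b (n + 1) + κ ∈ B) := by
          rw [hy1]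
          exact mem_Sv.mp hyS
        have hq := q3 hxB hyB
        rcases ih with ⟨h1, h2⟩ | ⟨h1, p, r, hpr, hr, u, hu, hup, h3, h4, h5⟩
        · right
          refine ⟨fun h => hq.mp h h1, n, 1, rfl, le_rfl, x + κ, hyS, Or.inr rfl, ?_, ?_, ?_⟩
          · intro j hj1 hj2
            have hj : j = 1 := by omega
            rw [hj]
            exact fun h => hq.mp h h1
          · intro j hj1 hj2
            omega
          · rw [hparx, hpary, h2, hdec, c5, decide_eq_true_iff]
        · left
          have h6 : u ∈ S₁ ↔ x + κ ∈ S₁ := by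
            refine hlink p r hr u hu hup h3 h4 (x + κ) hyS (Or.inr ?_)
            rw [hpr]
          refine ⟨hq.mpr h1, ?_⟩
          rw [hparx, hpary, hdec]
          apply c3
          rw [decide_eq_true_iff]
          exact h5.trans h6
      · -- no vertical edge
        have hyB : (x + κ ∈ B ↔ sh i b (n + 1) + κ ∈ B) := by
          rw [hy1]
          by_contra h
          exact hyS (mem_Sv.mpr h)
        have hyS1 : x + κ ∉ S₁ := fun h => hyS (hS h)
        have hdec2 : decide (x + κ ∈ S₁) = false := decide_eq_false hyS1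
        have hq := q4 hxB hyB
        have ex : par S₁ i (sh i b (n + 1)) = par S₁ i x := by
          rw [hparx, hdec, Bool.xor_false]
        have ey : par S₁ i (sh i b (n + 1) + κ) = par S₁ i (x + κ) := by
          rw [hpary, hdec2, Bool.xor_false]
        rcases ih with ⟨h1, h2⟩ | ⟨h1, p, r, hpr, hr, u, hu, hup, h3, h4, h5⟩
        · left
          exact ⟨hq.mpr h1, by rw [ex, ey, h2]⟩
        · right
          refine ⟨fun h => h1 (hq.mp h), p, r + 1, by omega, by omega, u, hu, hup, ?_, ?_, ?_⟩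
          · intro j hj1 hj2
            by_cases hj : j ≤ r
            · exact h3 j hj1 hj
            · have hj' : p + j = n + 1 := by omega
              rw [hj']
              exact fun h => h1 (hq.mp h)
          · intro j hj1 hj2
            by_cases hj : j < r
            · exact h4 j hj1 hj
            · have hj' : p + j = n := by omega
              rw [hj']
              exact ⟨hxS, hyS⟩
          · rw [ex, ey]
            exact h5

end Pool.T9h81.EAR
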