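import Pool.Agent.T9h81.EAR.Basic

/-!
# Existence of Gibbs states as limits with a fixed boundary condition
(adapted from the starting file H47R2/EA/GIBBSE.lean)
-/

set_option autoImplicit false
set_option linter.unusedSectionVars false

open MeasureTheory Filter Topology
open scoped ENNReal BoundedContinuousFunction Classical

namespace Pool.T9h81.EAR

namespace Lim

variable {V : Type} [Countable V] {G : SimpleGraph V} [G.LocallyFinite]

theorem continuous_sg : Continuous sg := continuous_of_discreteTopology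

theorem continuous_glue (Λ : Finset V) (η : Λ → Bool) :
    Continuous (fun ω : V → Bool => glue Λ η ω) := by
  apply continuous_pi
  intro x
  unfold glue
  by_cases h : x ∈ Λ
  · simp only [h, dif_pos]
    exact continuous_const
  · simp only [h, dif_neg, not_false_eq_true]
    exact continuous_apply x

theorem continuous_bond (J : Coupling G) (e : Sym2 V) :
    Continuous (fun σ : V → Bool => bond J σ e) := by
  induction e using Sym2.ind with
  | _ x y =>
    change Continuous (fun σ : V → Bool => Jc J x y * sg (σ x) * sg (σ y))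
    exact (continuous_const.mul (continuous_sg.comp (continuous_apply x))).mul
      (continuous_sg.comp (continuous_apply y))

theorem continuous_ham (J : Coupling G) (Λ : Finset V) :
    Continuous (fun σ : V → Bool => ham J Λ σ) := by
  unfold ham
  exact continuous_finsetSum _ fun e _ => continuous_bond J e

theorem continuous_wexp (β : ℝ) (J : Coupling G) (Λ : Finset V) (η : Λ → Bool) :
    Continuous (fun ω : V → Bool => Real.exp (β * ham J Λ (glue Λ η ω))) :=
  Real.continuous_exp.comp (continuous_const.mul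
    ((continuous_ham J Λ).comp (continuous_glue Λ η)))

theorem continuous_Zp (β : ℝ) (J : Coupling G) (Λ : Finset V) :
    Continuous (fun ω : V → Bool => Zp β J Λ ω) := by
  unfold Zp
  exact continuous_finsetSum _ fun η _ => continuous_wexp β J Λ η

/-- normalised weights -/
noncomputable def ww (β : ℝ) (J : Coupling G) (Λ : Finset V) (η : Λ → Bool)
    (ω : V → Bool) : ℝ := Real.exp (β * ham J Λ (glue Λ η ω)) / Zp β J Λ ω

theorem continuous_ww (β : ℝ) (J : Coupling G) (Λ : Finset V) (η : Λ → Bool) :
    Continuous (ww β J Λ η) :=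
  (continuous_wexp β J Λ η).div (continuous_Zp β J Λ) fun ω => (Zp_pos β J Λ ω).ne'

theorem ww_nonneg (β : ℝ) (J : Coupling G) (Λ : Finset V) (η : Λ → Bool)
    (ω : V → Bool) : 0 ≤ ww β J Λ η ω :=
  div_nonneg (Real.exp_pos _).le (Zp_pos β J Λ ω).le

theorem ww_sum (β : ℝ) (J : Coupling G) (Λ : Finset V) (ω : V → Bool) :
    ∑ η, ww β J Λ η ω = 1 := by
  unfold ww
  rw [← Finset.sum_div]
  exact div_self (Zp_pos β J Λ ω).ne'

theorem ww_le_one (β : ℝ) (J : Coupling G) (Λ : Finset V) (η : Λ → Bool)
    (ω : V → Bool) : ww β J Λ η ω ≤ 1 := by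
  rw [← ww_sum β J Λ ω]
  exact Finset.single_le_sum (fun η _ => ww_nonneg β J Λ η ω) (Finset.mem_univ η)

theorem gE_eq (β : ℝ) (J : Coupling G) (Λ : Finset V) (ω : V → Bool)
    (f : (V → Bool) → ℝ) :
    gE β J Λ ω f = ∑ η, ww β J Λ η ω * f (glue Λ η ω) := by
  unfold gE ww
  rw [Finset.sum_div]
  exact Finset.sum_congr rfl fun η _ => by ring

theorem continuous_gE (β : ℝ) (J : Coupling G) (Λ : Finset V)
    (f : (V → Bool) → ℝ) (hf : Continuous f) :
    Continuous (fun ω => gE β J Λ ω f) := by
  simp only [gE_eq]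
  exact continuous_finsetSum _ fun η _ =>
    (continuous_ww β J Λ η).mul (hf.comp (continuous_glue Λ η))

/-- the Gibbs kernel applied to a measure -/
noncomputable def KK (β : ℝ) (J : Coupling G) (Λ : Finset V)
    (π : Measure (V → Bool)) : Measure (V → Bool) :=
  ∑ η : Λ → Bool, (π.withDensity fun ω => ENNReal.ofReal (ww β J Λ η ω)).map (glue Λ η)

theorem integral_KK (β : ℝ) (J : Coupling G) (Λ : Finset V)
    (π : Measure (V → Bool)) [IsProbabilityMeasure π]
    (f : (V → Bool) → ℝ) (hf : Measurable f) (C : ℝ) (hC : ∀ x, |f x| ≤ C) :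
    ∫ ω, f ω ∂(KK β J Λ π) = ∫ ω, gE β J Λ ω f ∂π := by
  have hg : ∀ η : Λ → Bool, Measurable (glue Λ η) := fun η => (continuous_glue Λ η).measurable
  have hw : ∀ η : Λ → Bool, Measurable (fun ω => ENNReal.ofReal (ww β J Λ η ω)) :=
    fun η => (continuous_ww β J Λ η).measurable.ennreal_ofReal
  have hfin : ∀ η : Λ → Bool,
      IsFiniteMeasure (π.withDensity fun ω => ENNReal.ofReal (ww β J Λ η ω)) := by
    intro η
    apply isFiniteMeasure_withDensity
    have : ∫⁻ ω, ENNReal.ofReal (ww β J Λ η ω) ∂π ≤ ∫⁻ _, 1 ∂π := by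
      apply lintegral_mono
      intro ω
      calc ENNReal.ofReal (ww β J Λ η ω) ≤ ENNReal.ofReal 1 :=
            ENNReal.ofReal_le_ofReal (ww_le_one β J Λ η ω)
        _ = 1 := ENNReal.ofReal_one
    refine ne_top_of_le_ne_top ?_ this
    simp
  have hint : ∀ η : Λ → Bool,
      Integrable f ((π.withDensity fun ω => ENNReal.ofReal (ww β J Λ η ω)).map (glue Λ η)) := by
    intro η
    have := hfin η
    have h2 : IsFiniteMeasure
        ((π.withDensity fun ω => ENNReal.ofReal (ww β J Λ η ω)).map (glue Λ η)) :=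
      Measure.isFiniteMeasure_map _ _
    exact Integrable.of_bound hf.aestronglyMeasurable C (ae_of_all _ hC)
  unfold KK
  rw [integral_finsetSum_measure fun η _ => hint η]
  have h1 : ∀ η : Λ → Bool,
      ∫ ω, f ω ∂((π.withDensity fun ω => ENNReal.ofReal (ww β J Λ η ω)).map (glue Λ η)) =
        ∫ ω, ww β J Λ η ω * f (glue Λ η ω) ∂π := by
    intro η
    rw [integral_map (hg η).aemeasurable hf.aestronglyMeasurable,
      integral_withDensity_eq_integral_toReal_smul (hw η) (ae_of_all _ fun ω => ENNReal.ofReal_lt_top)]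
    refine integral_congr_ae (ae_of_all _ fun ω => ?_)
    simp only [smul_eq_mul]
    rw [ENNReal.toReal_ofReal (ww_nonneg β J Λ η ω)]
  rw [Finset.sum_congr rfl fun η _ => h1 η, ← integral_finsetSum]
  · exact integral_congr_ae (ae_of_all _ fun ω => (gE_eq β J Λ ω f).symm)
  · intro η _
    refine Integrable.of_bound ?_ C (ae_of_all _ fun ω => ?_)
    · exact ((continuous_ww β J Λ η).measurable.mul (hf.comp (hg η))).aestronglyMeasurable
    · rw [Real.norm_eq_abs, abs_mul, abs_of_nonneg (ww_nonneg β J Λ η ω)]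
      calc ww β J Λ η ω * |f (glue Λ η ω)| ≤ 1 * |f (glue Λ η ω)| :=
            mul_le_mul_of_nonneg_right (ww_le_one β J Λ η ω) (abs_nonneg _)
        _ ≤ C := by rw [one_mul]; exact hC _

theorem prob_KK (β : ℝ) (J : Coupling G) (Λ : Finset V)
    (π : Measure (V → Bool)) [IsProbabilityMeasure π] :
    IsProbabilityMeasure (KK β J Λ π) := by
  constructor
  have hg : ∀ η : Λ → Bool, Measurable (glue Λ η) := fun η => (continuous_glue Λ η).measurable
  unfold KK
  rw [Measure.finsetSum_apply]
  have h1 : ∀ η : Λ → Bool,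
      ((π.withDensity fun ω => ENNReal.ofReal (ww β J Λ η ω)).map (glue Λ η)) Set.univ =
        ∫⁻ ω, ENNReal.ofReal (ww β J Λ η ω) ∂π := by
    intro η
    rw [Measure.map_apply (hg η) MeasurableSet.univ, Set.preimage_univ,
      withDensity_apply _ MeasurableSet.univ, Measure.restrict_univ]
  rw [Finset.sum_congr rfl fun η _ => h1 η, ← lintegral_finsetSum]
  · have h2 : ∀ ω, ∑ η, ENNReal.ofReal (ww β J Λ η ω) = 1 := by
      intro ω
      rw [← ENNReal.ofReal_sum_of_nonneg fun η _ => ww_nonneg β J Λ η ω, ww_sum,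
        ENNReal.ofReal_one]
    simp only [h2]
    simp
  · intro η _
    exact (continuous_ww β J Λ η).measurable.ennreal_ofReal

theorem integral_KK_dirac (β : ℝ) (J : Coupling G) (Λ : Finset V) (ω₀ : V → Bool)
    (f : (V → Bool) → ℝ) (hf : Measurable f) (C : ℝ) (hC : ∀ x, |f x| ≤ C) :
    ∫ ω, f ω ∂(KK β J Λ (Measure.dirac ω₀)) = gE β J Λ ω₀ f := by
  rw [integral_KK β J Λ _ f hf C hC, integral_dirac]

end Lim

open Lim


theorem measurable_flipAll {V : Type} : Measurable (flipAll : (V → Bool) → (V → Bool)) := by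
  rw [measurable_pi_iff]
  intro x
  unfold flipAll
  exact (measurable_of_countable Bool.not).comp (measurable_pi_apply x)

section

variable {V : Type} [Countable V] {G : SimpleGraph V} [G.LocallyFinite]

/-- A Gibbs state whose expectations of continuous observables inherit all upper bounds valid in
a sequence of volumes with a fixed boundary condition. -/
theorem exists_gibbs_le (β : ℝ) (J : Coupling G) (ω₀ : V → Bool) (Λs : ℕ → Finset V)
    (hΛ : Tendsto Λs atTop atTop) :
    ∃ π : Measure (V → Bool), IsGibbs β J π ∧ ∀ (f : (V → Bool) → ℝ), Continuous f → ∀ a : ℝ,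
      (∀ n, gE β J (Λs n) ω₀ f ≤ a) → ∫ ω, f ω ∂π ≤ a := by
  let P : ℕ → ProbabilityMeasure (V → Bool) := fun n =>
    ⟨KK β J (Λs n) (Measure.dirac ω₀), prob_KK β J (Λs n) _⟩
  let U : Ultrafilter ℕ := Ultrafilter.of atTop
  have hU : (U : Filter ℕ) ≤ atTop := Ultrafilter.of_le _
  obtain ⟨π, -, hπ⟩ := (isCompact_univ (X := ProbabilityMeasure (V → Bool))).ultrafilter_le_nhds
    (U.map P) (by simp)
  have hlim : Tendsto P U (𝓝 π) := hπ
  have hconv : ∀ f : (V → Bool) → ℝ, Continuous f →
      Tendsto (fun n => gE β J (Λs n) ω₀ f) U (𝓝 (∫ ω, f ω ∂(π : Measure (V → Bool)))) := by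
    intro f hf
    let F : (V → Bool) →ᵇ ℝ := BoundedContinuousFunction.mkOfCompact ⟨f, hf⟩
    have h1 := (ProbabilityMeasure.tendsto_iff_forall_integral_tendsto.mp hlim) F
    refine h1.congr fun n => ?_
    exact integral_KK_dirac β J (Λs n) ω₀ f hf.measurable ‖F‖ fun x => F.norm_coe_le_norm x
  -- invariance
  have hinv : ∀ (Λ : Finset V) (f : (V → Bool) → ℝ), Continuous f →
      ∫ ω, gE β J Λ ω f ∂(π : Measure (V → Bool)) =
        ∫ ω, f ω ∂(π : Measure (V → Bool)) := by
    intro Λ f hf
    have h1 := hconv f hf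
    have h2 := hconv (fun ω => gE β J Λ ω f) (continuous_gE β J Λ f hf)
    refine tendsto_nhds_unique h2 (h1.congr' ?_)
    have h3 : ∀ᶠ n in (U : Filter ℕ), Λ ⊆ Λs n := hU (hΛ.eventually (eventually_ge_atTop Λ))
    filter_upwards [h3] with n hn
    exact gE_cons hn β J ω₀ f
  have hK : ∀ Λ : Finset V, KK β J Λ (π : Measure (V → Bool)) =
      (π : Measure (V → Bool)) := by
    intro Λ
    have := prob_KK β J Λ (π : Measure (V → Bool))
    have : TopologicalSpace.MetrizableSpace (V → Bool) :=
      TopologicalSpace.metrizableSpace_of_t3_secondCountable _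
    let _ : MetricSpace (V → Bool) := TopologicalSpace.metrizableSpaceMetric _
    apply ext_of_forall_integral_eq_of_IsFiniteMeasure
    intro f
    rw [integral_KK β J Λ _ f f.continuous.measurable ‖f‖ fun x => f.norm_coe_le_norm x]
    exact hinv Λ f f.continuous
  refine ⟨π, ⟨inferInstance, ?_⟩, ?_⟩
  · intro Λ A hA
    have hind : Measurable (A.indicator fun _ => (1 : ℝ)) := measurable_const.indicator hA
    have h1 := integral_KK β J Λ (π : Measure (V → Bool))
      (A.indicator fun _ => (1 : ℝ)) hind 1 (by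
        intro x
        by_cases hx : x ∈ A
        · simp [hx]
        · simp [hx])
    rw [← h1, hK, integral_indicator hA]
    simp [Measure.real]
  · intro f hf a ha
    exact le_of_tendsto (hconv f hf) (Filter.Eventually.of_forall ha)

theorem measurable_gE (β : ℝ) (J : Coupling G) (Λ : Finset V) (f : (V → Bool) → ℝ)
    (hf : Measurable f) : Measurable (fun ω => gE β J Λ ω f) := by
  simp only [gE_eq]
  exact Finset.measurable_sum _ fun η _ =>
    (continuous_ww β J Λ η).measurable.mul (hf.comp (continuous_glue Λ η).measurable)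

/-- The image of a Gibbs state under the global spin flip is a Gibbs state. -/
theorem isGibbs_flip (β : ℝ) (J : Coupling G) (π : Measure (V → Bool)) (h : IsGibbs β J π) :
    IsGibbs β J (π.map flipAll) := by
  have h0 : IsProbabilityMeasure π := h.1
  refine ⟨Measure.isProbabilityMeasure_map measurable_flipAll.aemeasurable, ?_⟩
  intro Λ A hA
  have hA' : MeasurableSet (flipAll ⁻¹' A : Set (V → Bool)) := measurable_flipAll hA
  have hind : Measurable (A.indicator fun _ => (1 : ℝ)) := measurable_const.indicator hA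
  rw [Measure.map_apply measurable_flipAll hA, h.2 Λ _ hA',
    integral_map measurable_flipAll.aemeasurable
      (measurable_gE β J Λ _ hind).aestronglyMeasurable]
  refine integral_congr_ae (ae_of_all _ fun ω => ?_)
  show gE β J Λ ω _ = gE β J Λ (flipAll ω) _
  rw [gE_flip]
  rfl

/-- The indicator that the spin at `x` differs from `ω₀`. -/
noncomputable def dis (ω₀ : V → Bool) (x : V) (σ : V → Bool) : ℝ := if σ x = ω₀ x then 0 else 1

omit [Countable V] in
theorem continuous_dis (ω₀ : V → Bool) (x : V) : Continuous (dis ω₀ x) := by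
  have h : dis ω₀ x = (fun b : Bool => if b = ω₀ x then (0 : ℝ) else 1) ∘ (fun σ => σ x) := rfl
  rw [h]
  exact continuous_of_discreteTopology.comp (continuous_apply x)

/-- Two different Gibbs states, exchanged by the global spin flip, if a fixed boundary condition
influences the spin at `x` in arbitrarily large volumes. -/
theorem two_gibbs (β : ℝ) (J : Coupling G) (ω₀ : V → Bool) (Λs : ℕ → Finset V)
    (hΛ : Tendsto Λs atTop atTop) (x : V) (a : ℝ) (ha2 : a < 1 / 2)
    (ha : ∀ n, gE β J (Λs n) ω₀ (dis ω₀ x) ≤ a) :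
    ∃ π : Measure (V → Bool), IsGibbs β J π ∧ IsGibbs β J (π.map flipAll) ∧
      π ≠ π.map flipAll := by
  obtain ⟨π, hπ, hint0⟩ := exists_gibbs_le β J ω₀ Λs hΛ
  have hint := hint0 (dis ω₀ x) (continuous_dis ω₀ x) a ha
  refine ⟨π, hπ, isGibbs_flip β J π hπ, ?_⟩
  intro heq
  have h0 : IsProbabilityMeasure π := hπ.1
  have h1 : ∫ ω, dis ω₀ x ω ∂π = ∫ ω, dis ω₀ x (flipAll ω) ∂π := by
    conv_lhs => rw [heq]
    rw [integral_map measurable_flipAll.aemeasurable
      (continuous_dis ω₀ x).measurable.aestronglyMeasurable]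
  have h2 : ∀ ω, dis ω₀ x (flipAll ω) = 1 - dis ω₀ x ω := by
    intro ω
    unfold dis flipAll
    cases h3 : ω x <;> cases h4 : ω₀ x <;> simp
  have h5 : Integrable (dis ω₀ x) π := by
    refine Integrable.of_bound (continuous_dis ω₀ x).measurable.aestronglyMeasurable 1
      (ae_of_all _ fun ω => ?_)
    unfold dis
    split_ifs <;> simp
  have h6 : ∫ ω, dis ω₀ x (flipAll ω) ∂π = 1 - ∫ ω, dis ω₀ x ω ∂π := by
    simp only [h2]
    rw [integral_sub (integrable_const _) h5]
    simp
  rw [h6] at h1
  linarith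

end

end Pool.T9h81.EAR
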