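import Pool.Agent.T9h81.EAR.Lattice

/-!
# The vertical boundary edges of a connected set with connected complement are linked
-/

set_option autoImplicit false

open scoped Classical

namespace Pool.T9h81.EAR

variable {d : ℕ}

theorem exists_low (F : Finset (Site d)) (i : Fin d) : ∃ m : ℤ, ∀ u ∈ F, m ≤ u i := by
  induction F using Finset.induction_on with
  | empty => exact ⟨0, fun u hu => absurd hu (Finset.notMem_empty u)⟩
  | insert a F _ ih =>
    obtain ⟨m, hm⟩ := ih
    refine ⟨min m (a i), fun u hu => ?_⟩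
    rcases Finset.mem_insert.mp hu with rfl | hu
    · exact min_le_right _ _
    · exact (min_le_left _ _).trans (hm u hu)

/-- horizontally, the parity function is constant across non-boundary edges -/
theorem par_hor (B S₁ : Finset (Site d)) (i : Fin d)
    (hcl : ∀ u ∈ Sv B i, ∀ v ∈ Sv B i, ∀ r, Up B i r u v → (u ∈ S₁ ↔ v ∈ S₁))
    (hS : S₁ ⊆ Sv B i) (κ : Site d) (hκ : HU i κ) (u : Site d) (hu : u ∈ B ↔ u + κ ∈ B) :
    par S₁ i u = par S₁ i (u + κ) := by
  obtain ⟨m, hm⟩ := exists_low (B ∪ S₁) i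
  set n₀ : ℕ := (u i - m + 1).toNat with hn
  set b : Site d := u - Pi.single i (n₀ : ℤ) with hb
  have hbu : sh i b n₀ = u := by
    unfold sh
    rw [hb]
    abel
  have hbi : b i < m := by
    have h1 : b i = u i - n₀ := by
      rw [hb, Pi.sub_apply, Pi.single_eq_same]
    have h2 : u i - m + 1 ≤ n₀ := Int.self_le_toNat _
    omega
  have hbκ : (b + κ) i = b i := by rw [Pi.add_apply, hκ.apply, add_zero]
  have hlow : ∀ z : Site d, z i < m → z ∉ B ∧ par S₁ i z = false := by
    intro z hz
    constructor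
    · intro h
      have := hm z (Finset.mem_union_left _ h)
      omega
    · apply par_low
      intro w hw
      have := hm w (Finset.mem_union_right _ hw)
      omega
  obtain ⟨h1, h2⟩ := hlow b hbi
  obtain ⟨h3, h4⟩ := hlow (b + κ) (by rw [hbκ]; exact hbi)
  rcases strip B S₁ i hcl hS κ hκ b h1 h3 h2 h4 n₀ with ⟨_, h5⟩ | ⟨h5, _⟩
  · rw [hbu] at h5
    exact h5
  · rw [hbu] at h5
    exact absurd hu h5

/-- **Connectivity of the link relation** -/
theorem link_closed (B S₁ : Finset (Site d)) (i : Fin d) (hB : ConnSet (B : Set (Site d)))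
    (hBc : ConnSet {x | x ∉ B}) (hS : S₁ ⊆ Sv B i) (hne : S₁.Nonempty)
    (hcl : ∀ u ∈ Sv B i, ∀ v ∈ Sv B i, ∀ r, Up B i r u v → (u ∈ S₁ ↔ v ∈ S₁)) :
    S₁ = Sv B i := by
  have hloc : ∀ u v : Site d, (lat d).Adj u v → (u ∈ B ↔ v ∈ B) → par S₁ i u = par S₁ i v := by
    have key : ∀ (u : Site d) (k : Fin d), (u ∈ B ↔ u + Pi.single k 1 ∈ B) →
        par S₁ i u = par S₁ i (u + Pi.single k 1) := by
      intro u k h
      by_cases hk : k = i
      · subst hk
        rw [par_up]
        have h1 : u ∉ S₁ := fun h2 => mem_Sv.mp (hS h2) h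
        rw [decide_eq_false h1, Bool.xor_false]
      · exact par_hor B S₁ i hcl hS _ ⟨k, hk, Or.inl rfl⟩ u h
    rintro u v ⟨k, h | h⟩ huv
    · rw [h]
      exact key u k (h ▸ huv)
    · rw [h]
      exact (key v k (by rw [← h]; exact huv.symm)).symm
  have hconstB := hB (par S₁ i) fun u hu v hv huv =>
    hloc u v huv ⟨fun _ => hv, fun _ => hu⟩
  have hconstBc := hBc (par S₁ i) fun u hu v hv huv =>
    hloc u v huv ⟨fun h => absurd h hu, fun h => absurd h hv⟩
  -- the parity vanishes off `B`
  obtain ⟨m, hm⟩ := exists_low (B ∪ S₁) i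
  have hz : ∃ z : Site d, z ∉ B ∧ par S₁ i z = false := by
    refine ⟨fun _ => m - 1, ?_, ?_⟩
    · intro h
      have := hm _ (Finset.mem_union_left _ h)
      omega
    · apply par_low
      intro w hw
      have := hm w (Finset.mem_union_right _ hw)
      show m - 1 ≤ w i
      omega
  obtain ⟨z, hzB, hz0⟩ := hz
  have hoff : ∀ v, v ∉ B → par S₁ i v = false := by
    intro v hv
    rw [← hz0]
    exact hconstBc v hv z hzB
  obtain ⟨u, hu⟩ := hne
  have huS := mem_Sv.mp (hS hu)
  have hup := par_up S₁ i u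
  rw [decide_eq_true hu, Bool.xor_true] at hup
  have hon : ∀ v, v ∈ B → par S₁ i v = true := by
    by_cases huB : u ∈ B
    · have h1 : u + Pi.single i 1 ∉ B := fun h => huS ⟨fun _ => h, fun _ => huB⟩
      rw [hoff _ h1] at hup
      intro v hv
      rw [hconstB v hv u huB]
      cases h2 : par S₁ i u
      · rw [h2] at hup
        exact absurd hup (by decide)
      · rfl
    · have h1 : u + Pi.single i 1 ∈ B := by
        by_contra h
        exact huS ⟨fun h2 => absurd h2 huB, fun h2 => absurd h2 h⟩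
      rw [hoff _ huB] at hup
      intro v hv
      rw [hconstB v hv _ h1, hup]
      rfl
  apply Finset.Subset.antisymm hS
  intro v hv
  have hvS := mem_Sv.mp hv
  have hvp := par_up S₁ i v
  by_contra hvS1
  rw [decide_eq_false hvS1, Bool.xor_false] at hvp
  by_cases hvB : v ∈ B
  · have h1 : v + Pi.single i 1 ∉ B := fun h => hvS ⟨fun _ => h, fun _ => hvB⟩
    rw [hoff _ h1, hon _ hvB] at hvp
    exact absurd hvp (by decide)
  · have h1 : v + Pi.single i 1 ∈ B := by
      by_contra h
      exact hvS ⟨fun h2 => absurd h2 hvB, fun h2 => absurd h2 h⟩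
    rw [hoff _ hvB, hon _ h1] at hvp
    exact absurd hvp (by decide)

end Pool.T9h81.EAR
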