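import Pool.Agent.T9h81.EAR.Fill
import Pool.Agent.T9h81.EAR.Indep

/-!
# Independent couplings with a small positive mean on `ℤ^d`: symmetry breaking
-/

set_option autoImplicit false

open MeasureTheory ProbabilityTheory Filter Topology
open scoped Classical ENNReal

namespace Pool.T9h81.EAR

variable {d : ℕ}

/-- the contours with `n` boundary edges around `x` -/
noncomputable def ctr (hd : 2 ≤ d) (x : Site d) (n : ℕ) : Finset (Finset (Site d)) :=
  (count_contours hd x n).choose

theorem mem_ctr (hd : 2 ≤ d) {x : Site d} {n : ℕ} {B : Finset (Site d)} :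
    B ∈ ctr hd x n ↔ Contour x n B := (count_contours hd x n).choose_spec.1 B

theorem ctr_empty (hd : 2 ≤ d) {x : Site d} {n : ℕ} (h : n < d) : ctr hd x n = ∅ :=
  (count_contours hd x n).choose_spec.2.1 h

theorem card_ctr (hd : 2 ≤ d) (x : Site d) (n : ℕ) :
    ((ctr hd x n).card : ℝ) ≤ Real.exp (32 * (n * Real.log d / d)) :=
  (count_contours hd x n).choose_spec.2.2

/-- the summable bound -/
noncomputable def wz (d n : ℕ) : ℝ := (1 / (d : ℝ) ^ 3) * Real.exp (-(3 * (Real.log d / d))) ^ n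

theorem wz_nonneg (d n : ℕ) : 0 ≤ wz d n := by
  unfold wz
  positivity

theorem wz_bound (hd : 2 ≤ d) (x : Site d) (n : ℕ) (t : ℝ)
    (ht : 38 * (n * (Real.log d / d)) ≤ t) :
    ((ctr hd x n).card : ℝ) * Real.exp (-t) ≤ wz d n := by
  have hd' : (2 : ℝ) ≤ d := by exact_mod_cast hd
  have hd0 : (0 : ℝ) < d := by linarith
  have hlog : 0 ≤ Real.log d := Real.log_nonneg (by linarith)
  by_cases hn : n < d
  · rw [ctr_empty hd hn, Finset.card_empty, Nat.cast_zero, zero_mul]
    exact wz_nonneg d n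
  · rw [not_lt] at hn
    have hn' : (d : ℝ) ≤ n := by exact_mod_cast hn
    unfold wz
    have h1 : (1 / (d : ℝ) ^ 3) = Real.exp (-(3 * Real.log d)) := by
      rw [Real.exp_neg, one_div]
      congr 1
      have h8 : 3 * Real.log d = ((3 : ℕ) : ℝ) * Real.log d := by norm_num
      rw [h8, Real.exp_nat_mul, Real.exp_log hd0]
    rw [h1, ← Real.exp_nat_mul, ← Real.exp_add]
    calc ((ctr hd x n).card : ℝ) * Real.exp (-t)
        ≤ Real.exp (32 * (n * Real.log d / d)) * Real.exp (-t) :=
          mul_le_mul_of_nonneg_right (card_ctr hd x n) (Real.exp_pos _).le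
      _ = Real.exp (32 * (n * Real.log d / d) + -t) := (Real.exp_add _ _).symm
      _ ≤ _ := by
          apply Real.exp_le_exp.mpr
          have h2 : Real.log d ≤ n * (Real.log d / d) := by
            calc Real.log d = d * (Real.log d / d) := by field_simp
              _ ≤ n * (Real.log d / d) := mul_le_mul_of_nonneg_right hn' (by positivity)
          have h3 : (n : ℝ) * Real.log d / d = n * (Real.log d / d) := by ring
          rw [h3]
          have h4 : (n : ℝ) * -(3 * (Real.log d / d)) = -(3 * (n * (Real.log d / d))) := by ring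
          rw [h4]
          linarith

theorem wz_tsum (hd : 2 ≤ d) : Summable (wz d) ∧ ∑' n, wz d n ≤ 1 / 4 := by
  have hd' : (2 : ℝ) ≤ d := by exact_mod_cast hd
  have hd0 : (0 : ℝ) < d := by linarith
  have hlog2 : (0.69 : ℝ) < Real.log 2 := lt_trans (by norm_num) Real.log_two_gt_d9
  have hlog : Real.log 2 ≤ Real.log d := Real.log_le_log (by norm_num) hd'
  set y : ℝ := 3 * (Real.log d / d) with hy
  have hy0 : 0 < y := by
    rw [hy]
    have : 0 < Real.log d := by linarith
    positivity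
  have hr1 : Real.exp (-y) < 1 := by
    rw [Real.exp_lt_one_iff]
    linarith
  have hr0 : 0 ≤ Real.exp (-y) := (Real.exp_pos _).le
  have hgeo := summable_geometric_of_lt_one hr0 hr1
  have hw : wz d = fun n => (1 / (d : ℝ) ^ 3) * Real.exp (-y) ^ n := rfl
  constructor
  · rw [hw]
    exact hgeo.mul_left _
  · rw [hw, tsum_mul_left, tsum_geometric_of_lt_one hr0 hr1]
    -- `1 / (1 - exp (-y)) ≤ 1 + 1 / y`
    have h1 : (1 - Real.exp (-y))⁻¹ ≤ 1 + 1 / y := by
      have h2 : Real.exp (-y) ≤ 1 / (1 + y) := by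
        rw [Real.exp_neg, ← one_div]
        apply one_div_le_one_div_of_le (by linarith)
        linarith [Real.add_one_le_exp y]
      have h3 : y / (1 + y) ≤ 1 - Real.exp (-y) := by
        have h4 : y / (1 + y) = 1 - 1 / (1 + y) := by
          field_simp
          ring
        rw [h4]
        linarith
      calc (1 - Real.exp (-y))⁻¹ ≤ (y / (1 + y))⁻¹ := inv_anti₀ (by positivity) h3
        _ = 1 + 1 / y := by
          rw [inv_div]
          field_simp
          ring
    have h5 : 1 / y ≤ d / 2 := by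
      rw [hy, div_le_div_iff₀ (by positivity) (by norm_num)]
      have h6 : (d : ℝ) * (3 * (Real.log d / d)) = 3 * Real.log d := by
        field_simp
      rw [h6]
      linarith
    have h7 : (1 / (d : ℝ) ^ 3) * (1 + d / 2) ≤ 1 / 4 := by
      rw [one_div_mul_eq_div, div_le_div_iff₀ (by positivity) (by norm_num)]
      have h8 : (4 : ℝ) * d ≤ (d : ℝ) ^ 3 := by
        have h9 : (4 : ℝ) ≤ (d : ℝ) ^ 2 := by nlinarith
        have h10 : (d : ℝ) ^ 3 = (d : ℝ) ^ 2 * d := by ring
        rw [h10]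
        exact mul_le_mul_of_nonneg_right h9 hd0.le
      linarith
    calc (1 / (d : ℝ) ^ 3) * (1 - Real.exp (-y))⁻¹
        ≤ (1 / (d : ℝ) ^ 3) * (1 + d / 2) := by
          apply mul_le_mul_of_nonneg_left _ (by positivity)
          linarith
      _ ≤ 1 / 4 := h7

/-! ### The random couplings -/

/-- boundary edges as coordinates -/
noncomputable def bco (B : Finset (Site d)) : Finset (lat d).edgeSet :=
  (bdE (lat d) B).subtype fun e => e ∈ (lat d).edgeSet

theorem bdE_sub (B : Finset (Site d)) : ∀ e ∈ bdE (lat d) B, e ∈ (lat d).edgeSet := by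
  intro e he
  obtain ⟨u, _, v, _, huv, rfl⟩ := mem_bdE.mp he
  exact huv

theorem card_bco (B : Finset (Site d)) : (bco B).card = (bdE (lat d) B).card := by
  unfold bco
  rw [Finset.card_subtype, Finset.filter_true_of_mem (bdE_sub B)]

/-- the boundary energy in the all-plus configuration -/
theorem bE_plus (J : Coupling (lat d)) (B : Finset (Site d)) :
    bE J (fun _ => true) B = ∑ i ∈ bco B, J i := by
  unfold bE bco
  have h1 : ∀ e ∈ bdE (lat d) B, bond J (fun _ => true) e =
      (if h : e ∈ (lat d).edgeSet then J ⟨e, h⟩ else 0) := by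
    intro e he
    obtain ⟨u, _, v, _, huv, rfl⟩ := mem_bdE.mp he
    have h2 : s(u, v) ∈ (lat d).edgeSet := huv
    rw [bond_mk, dif_pos h2]
    unfold Jc
    rw [dif_pos huv]
    simp [sg]
  rw [Finset.sum_congr rfl h1, ← Finset.sum_subtype_of_mem
    (fun e => if h : e ∈ (lat d).edgeSet then J ⟨e, h⟩ else 0) (bdE_sub B)]
  apply Finset.sum_congr rfl
  intro i _
  rw [dif_pos i.2]

/-- bad event -/
def BadZ (hd : 2 ≤ d) (m : ℝ) (x : Site d) (n : ℕ) : Set (Coupling (lat d)) :=
  {J | ∃ B ∈ ctr hd x n, ∑ i ∈ bco B, J i < m / 2 * n}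

noncomputable def SZ (hd : 2 ≤ d) (x : Site d) (n : ℕ) : Finset (lat d).edgeSet :=
  (ctr hd x n).biUnion bco

theorem BadZ_eq (hd : 2 ≤ d) (m : ℝ) (x : Site d) (n : ℕ) :
    BadZ hd m x n = ⋃ B ∈ ctr hd x n, {J | ∑ i ∈ bco B, J i < m / 2 * n} := by
  ext J
  simp only [BadZ, Set.mem_iUnion]
  constructor
  · rintro ⟨B, hB, h⟩
    exact ⟨B, hB, h⟩
  · rintro ⟨B, hB, h⟩
    exact ⟨B, hB, h⟩

theorem BadZ_dep (hd : 2 ≤ d) (m : ℝ) (x : Site d) (n : ℕ) :
    DepOn (SZ hd x n) (BadZ hd m x n) := by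
  rw [BadZ_eq]
  apply DepOn.biUnion
  intro B hB
  apply DepOn.mono (S := bco B)
  · refine depOn_of {η : bco B → ℝ | ∑ i : bco B, η i < m / 2 * n} ?_ ?_
    · apply measurableSet_lt _ measurable_const
      exact Finset.measurable_sum _ fun i _ => measurable_pi_apply i
    · ext J
      show ∑ i ∈ bco B, J i < m / 2 * n ↔ ∑ i : bco B, J i < m / 2 * n
      rw [Finset.sum_coe_sort (bco B) J]
  · exact Finset.subset_biUnion_of_mem bco hB

theorem SZ_loc (hd : 2 ≤ d) (n : ℕ) (i : (lat d).edgeSet) :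
    {x | i ∈ SZ hd x n}.Finite := by
  obtain ⟨e, he⟩ := i
  induction e using Sym2.ind with
  | _ u v =>
    have hsub : {x | (⟨s(u, v), he⟩ : (lat d).edgeSet) ∈ SZ hd x n} ⊆
        ((((ctr hd u n).biUnion id) ∪ ((ctr hd v n).biUnion id) : Finset (Site d)) :
          Set (Site d)) := by
      intro x hx
      obtain ⟨B, hB, h1⟩ := Finset.mem_biUnion.mp hx
      have hC := (mem_ctr hd).mp hB
      unfold bco at h1
      rw [Finset.mem_subtype, mem_bdE] at h1
      obtain ⟨u', hu', v', hv', -, h2⟩ := h1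
      rw [Finset.coe_union, Set.mem_union]
      rcases Sym2.eq_iff.mp h2 with h3 | h3
      · left
        rw [h3.1] at hu'
        exact Finset.mem_coe.mpr (Finset.mem_biUnion.mpr
          ⟨B, (mem_ctr hd).mpr ⟨hu', hC.2⟩, hC.1⟩)
      · right
        rw [h3.1] at hu'
        exact Finset.mem_coe.mpr (Finset.mem_biUnion.mpr
          ⟨B, (mem_ctr hd).mpr ⟨hu', hC.2⟩, hC.1⟩)
    exact (Finset.finite_toSet _).subset hsub

theorem prob_BadZ (hd : 2 ≤ d) (ν : (lat d).edgeSet → Measure ℝ)
    [∀ e, IsProbabilityMeasure (ν e)] (m : ℝ) (hm0 : 0 < m)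
    (hm : 18 * √(Real.log d / d) ≤ m) (hmean : ∀ e, m ≤ ∫ y, y ∂(ν e))
    (hsub : ∀ e, HasSubgaussianMGF (fun y => y - ∫ z, z ∂(ν e)) 1 (ν e)) (x : Site d) (n : ℕ) :
    (Measure.infinitePi ν) (BadZ hd m x n) ≤ ENNReal.ofReal (wz d n) := by
  set μ := Measure.infinitePi ν with hμ
  have hd' : (2 : ℝ) ≤ d := by exact_mod_cast hd
  have hd0 : (0 : ℝ) < d := by linarith
  have hlog : 0 ≤ Real.log d := Real.log_nonneg (by linarith)
  have hm2 : 38 * (Real.log d / d) ≤ m ^ 2 / 8 := by
    have h1 : (18 * √(Real.log d / d)) ^ 2 ≤ m ^ 2 := pow_le_pow_left₀ (by positivity) hm 2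
    rw [mul_pow, Real.sq_sqrt (by positivity)] at h1
    have h2 : 0 ≤ Real.log d / d := by positivity
    nlinarith
  by_cases hn0 : n = 0
  · have hempty : BadZ hd m x n = ∅ := by
      rw [BadZ_eq, ctr_empty hd (by omega)]
      simp
    rw [hempty, measure_empty]
    exact zero_le
  have hnpos : (0 : ℝ) < n := by exact_mod_cast Nat.pos_of_ne_zero hn0
  have hone : ∀ B ∈ ctr hd x n, μ.real {J | ∑ i ∈ bco B, J i < m / 2 * n} ≤
      Real.exp (-(m ^ 2 / 8 * n)) := by
    intro B hB
    have hC := (mem_ctr hd).mp hB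
    have hcard : (bco B).card = n := by rw [card_bco]; exact hC.2.2.2
    have h1 := subg_tail ν m hmean hsub (bco B) (m / 2 * n) (by positivity)
    rw [hcard] at h1
    have hsub' : {J : Coupling (lat d) | ∑ i ∈ bco B, J i < m / 2 * n} ⊆
        {J | ∑ i ∈ bco B, J i ≤ n * m - m / 2 * n} := by
      intro J hJ
      have hJ' : ∑ i ∈ bco B, J i < m / 2 * n := hJ
      show ∑ i ∈ bco B, J i ≤ n * m - m / 2 * n
      linarith
    refine (measureReal_mono hsub').trans (h1.trans (le_of_eq ?_))
    congr 1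
    field_simp
    ring
  rw [BadZ_eq]
  calc μ (⋃ B ∈ ctr hd x n, {J | ∑ i ∈ bco B, J i < m / 2 * n})
      ≤ ∑ B ∈ ctr hd x n, μ {J | ∑ i ∈ bco B, J i < m / 2 * n} := measure_biUnion_finset_le _ _
    _ ≤ ∑ B ∈ ctr hd x n, ENNReal.ofReal (Real.exp (-(m ^ 2 / 8 * n))) := by
        apply Finset.sum_le_sum
        intro B hB
        rw [← ofReal_measureReal]
        exact ENNReal.ofReal_le_ofReal (hone B hB)
    _ = ENNReal.ofReal (((ctr hd x n).card : ℝ) * Real.exp (-(m ^ 2 / 8 * n))) := by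
        rw [Finset.sum_const, nsmul_eq_mul, ENNReal.ofReal_mul (Nat.cast_nonneg _),
          ENNReal.ofReal_natCast]
    _ ≤ ENNReal.ofReal (wz d n) := by
        apply ENNReal.ofReal_le_ofReal
        apply wz_bound hd x n
        have h3 : 38 * ((n : ℝ) * (Real.log d / d)) = 38 * (Real.log d / d) * n := by ring
        rw [h3]
        exact mul_le_mul_of_nonneg_right hm2 hnpos.le

/-- the plus boundary condition is felt at a good vertex, in all boxes -/
theorem peierls_box (hd : 2 ≤ d) (m : ℝ) (hm0 : 0 < m) (β : ℝ) (hβ : 38 * (Real.log d / d) ≤ β * m)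
    (J : Coupling (lat d)) (x : Site d) (hx : ∀ n, J ∉ BadZ hd m x n) (N : ℕ) :
    gE β J (box d N) (fun _ => true) (dis (fun _ => true) x) ≤ 1 / 4 := by
  have hd' : (2 : ℝ) ≤ d := by exact_mod_cast hd
  have hd0 : (0 : ℝ) < d := by linarith
  have hlog : 0 ≤ Real.log d := Real.log_nonneg (by linarith)
  have hβ0 : 0 ≤ β := by
    by_contra h
    rw [not_le] at h
    have h1 : β * m < 0 := mul_neg_of_neg_of_pos h hm0
    have h2 : 0 ≤ 38 * (Real.log d / d) := by positivity
    linarith
  have hout : ∃ z : Site d, z ∉ box d N := by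
    refine ⟨fun _ => (N : ℤ) + 1, ?_⟩
    rw [mem_box]
    intro h
    have := (h ⟨0, by omega⟩).2
    omega
  set M := (edgesOf (lat d) (box d N)).card with hM
  have h1 := peierls β J (box d N) (fun _ => true) x
    ((Finset.range (M + 1)).biUnion fun n => ctr hd x n) (by
      intro A hA hconn
      obtain ⟨B, hBΛ, hxB, hB1, hB2, hB3⟩ := fill (box d N) A (conn_compl_box hd N) hout x hA hconn
      refine ⟨B, ?_, hBΛ, hB3⟩
      rw [Finset.mem_biUnion]
      refine ⟨(bdE (lat d) B).card, ?_, (mem_ctr hd).mpr ⟨hxB, hB1, hB2, rfl⟩⟩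
      rw [Finset.mem_range]
      have := Finset.card_le_card (bdE_subset (G := lat d) hBΛ)
      omega)
  refine h1.trans ?_
  obtain ⟨hsum, htsum⟩ := wz_tsum hd
  have h3 : ∀ n : ℕ, ∑ B ∈ ctr hd x n, Real.exp (-(2 * β * bE J (fun _ => true) B)) ≤ wz d n := by
    intro n
    calc ∑ B ∈ ctr hd x n, Real.exp (-(2 * β * bE J (fun _ => true) B))
        ≤ ∑ B ∈ ctr hd x n, Real.exp (-(β * m * n)) := by
          apply Finset.sum_le_sum
          intro B hB
          apply Real.exp_le_exp.mpr
          have h4 : m / 2 * n ≤ bE J (fun _ => true) B := by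
            rw [bE_plus]
            by_contra h5
            rw [not_le] at h5
            exact hx n ⟨B, hB, h5⟩
          have h6 : β * (m / 2 * n) ≤ β * bE J (fun _ => true) B :=
            mul_le_mul_of_nonneg_left h4 hβ0
          linarith
      _ = ((ctr hd x n).card : ℝ) * Real.exp (-(β * m * n)) := by
          rw [Finset.sum_const, nsmul_eq_mul]
      _ ≤ wz d n := by
          apply wz_bound hd x n
          have h7 : 38 * ((n : ℝ) * (Real.log d / d)) = 38 * (Real.log d / d) * n := by ring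
          rw [h7]
          exact mul_le_mul_of_nonneg_right hβ (Nat.cast_nonneg n)
  calc ∑ B ∈ (Finset.range (M + 1)).biUnion (fun n => ctr hd x n),
        Real.exp (-(2 * β * bE J (fun _ => true) B))
      = ∑ n ∈ Finset.range (M + 1), ∑ B ∈ ctr hd x n,
        Real.exp (-(2 * β * bE J (fun _ => true) B)) := by
        apply Finset.sum_biUnion
        intro n _ n' _ hne
        simp only [Function.onFun]
        rw [Finset.disjoint_left]
        intro B hB hB'
        have h6 := ((mem_ctr hd).mp hB).2.2.2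
        have h7 := ((mem_ctr hd).mp hB').2.2.2
        omega
    _ ≤ ∑ n ∈ Finset.range (M + 1), wz d n := Finset.sum_le_sum fun n _ => h3 n
    _ ≤ ∑' n : ℕ, wz d n := hsum.sum_le_tsum _ fun n _ => wz_nonneg d n
    _ ≤ 1 / 4 := htsum

theorem tendsto_box (d : ℕ) : Tendsto (box d) atTop atTop := by
  apply tendsto_atTop_finset_of_monotone
  · intro m n hmn x hx
    rw [mem_box] at *
    intro k
    have := hx k
    omega
  · intro x
    refine ⟨∑ k, (x k).natAbs, ?_⟩
    rw [mem_box]
    intro k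
    have h1 : (x k).natAbs ≤ ∑ k, (x k).natAbs :=
      Finset.single_le_sum (f := fun k => (x k).natAbs) (fun _ _ => Nat.zero_le _)
        (Finset.mem_univ k)
    omega

/-- **Symmetry breaking for independent couplings with small positive mean** -/
theorem main_mean (hd : 2 ≤ d) (ν : (lat d).edgeSet → Measure ℝ)
    [∀ e, IsProbabilityMeasure (ν e)] (m : ℝ) (hm : 18 * √(Real.log d / d) ≤ m)
    (hmean : ∀ e, m ≤ ∫ y, y ∂(ν e))
    (hsub : ∀ e, HasSubgaussianMGF (fun y => y - ∫ z, z ∂(ν e)) 1 (ν e)) :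
    ∀ᵐ J ∂(Measure.infinitePi ν), ∀ β : ℝ, 38 * (Real.log d / d) ≤ β * m →
      ∃ π : Measure (Site d → Bool), IsGibbs β J π ∧ IsGibbs β J (π.map flipAll) ∧
        π ≠ π.map flipAll := by
  have hd' : (2 : ℝ) ≤ d := by exact_mod_cast hd
  have hd0 : (0 : ℝ) < d := by linarith
  have hlog : 0 < Real.log d := Real.log_pos (by linarith)
  have hm0 : 0 < m := by
    have h1 : 0 < √(Real.log d / d) := Real.sqrt_pos.mpr (by positivity)
    linarith
  have : Nonempty (Fin d) := ⟨⟨0, by omega⟩⟩
  have hinf : Infinite (Site d) := inferInstance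
  obtain ⟨hsum, htsum⟩ := wz_tsum hd
  have hgood := exists_good ν (fun x n => BadZ hd m x n) (fun x n => SZ hd x n)
    (fun x n => BadZ_dep hd m x n) (fun n => ENNReal.ofReal (wz d n))
    (fun x n => prob_BadZ hd ν m hm0 hm hmean hsub x n)
    (by
      rw [← ENNReal.ofReal_tsum_of_nonneg (wz_nonneg d) hsum, ENNReal.ofReal_lt_one]
      linarith)
    (fun n i => SZ_loc hd n i)
  filter_upwards [hgood] with J hJ β hβ
  obtain ⟨x, hx⟩ := hJ
  exact two_gibbs β J (fun _ => true) (box d) (tendsto_box d) x (1 / 4) (by norm_num) fun N =>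
    peierls_box hd m hm0 β hβ J x hx N

end Pool.T9h81.EAR
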