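import Pool.Agent.T9h81.EAR.Limit

/-!
# A zero-one law for symmetry breaking; changing one coupling
-/

set_option autoImplicit false

open MeasureTheory ProbabilityTheory Filter Topology
open scoped ENNReal Classical

namespace Pool.T9h81.EAR

/-! ### Products of spins -/

/-- product of the spins in a finite set -/
noncomputable def sX {V : Type} (X : Finset V) (σ : V → Bool) : ℝ := ∏ x ∈ X, sg (σ x)

/-- toggle membership of `x` -/
noncomputable def tg {V : Type} (X : Finset V) (x : V) : Finset V :=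
  if x ∈ X then X.erase x else insert x X

theorem sX_tg {V : Type} (X : Finset V) (x : V) (σ : V → Bool) :
    sX (tg X x) σ = sg (σ x) * sX X σ := by
  unfold sX tg
  by_cases hx : x ∈ X
  · rw [if_pos hx, ← Finset.mul_prod_erase X _ hx, ← mul_assoc, sg_mul_self, one_mul]
  · rw [if_neg hx, Finset.prod_insert hx]

theorem odd_tg {V : Type} (X : Finset V) (x : V) : Odd (tg X x).card ↔ ¬ Odd X.card := by
  unfold tg
  by_cases hx : x ∈ X
  · rw [if_pos hx, Finset.card_erase_of_mem hx]
    have h1 : 0 < X.card := Finset.card_pos.mpr ⟨x, hx⟩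
    rw [Nat.not_odd_iff_even]
    obtain ⟨k, hk⟩ : ∃ k, X.card = k + 1 := ⟨X.card - 1, by omega⟩
    rw [hk, Nat.add_sub_cancel, Nat.even_add_one, Nat.not_even_iff_odd]
  · rw [if_neg hx, Finset.card_insert_of_notMem hx, Nat.odd_add_one]

theorem abs_sg (b : Bool) : |sg b| = 1 := by cases b <;> simp [sg]

theorem abs_sX {V : Type} (X : Finset V) (σ : V → Bool) : |sX X σ| = 1 := by
  unfold sX
  rw [Finset.abs_prod]
  exact Finset.prod_eq_one fun x _ => abs_sg _

theorem continuous_sX {V : Type} (X : Finset V) : Continuous (fun σ : V → Bool => sX X σ) := by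
  unfold sX
  exact continuous_finsetProd _ fun x _ => Lim.continuous_sg.comp (continuous_apply x)

theorem sX_flip {V : Type} (X : Finset V) (hX : Odd X.card) (σ : V → Bool) :
    sX X (flipAll σ) = - sX X σ := by
  unfold sX flipAll
  simp only [sg_not]
  rw [Finset.prod_neg, hX.neg_one_pow]
  ring

section

variable {V : Type} {G : SimpleGraph V} [G.LocallyFinite]

theorem abs_gE_le [Countable V] (β : ℝ) (J : Coupling G) (Λ : Finset V) (ω : V → Bool)
    (f : (V → Bool) → ℝ) (C : ℝ) (hf : ∀ σ, |f σ| ≤ C) : |gE β J Λ ω f| ≤ C := by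
  rw [Lim.gE_eq]
  calc |∑ η, Lim.ww β J Λ η ω * f (glue Λ η ω)| ≤ ∑ η, |Lim.ww β J Λ η ω * f (glue Λ η ω)| :=
        Finset.abs_sum_le_sum_abs _ _
    _ ≤ ∑ η, Lim.ww β J Λ η ω * C := by
        apply Finset.sum_le_sum
        intro η _
        rw [abs_mul, abs_of_nonneg (Lim.ww_nonneg β J Λ η ω)]
        exact mul_le_mul_of_nonneg_left (hf _) (Lim.ww_nonneg β J Λ η ω)
    _ = C := by rw [← Finset.sum_mul, Lim.ww_sum, one_mul]

omit [G.LocallyFinite] in
theorem bond_update (J : Coupling G) (e : G.edgeSet) (v : ℝ) (x y : V) (he : e.1 = s(x, y))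
    (σ : V → Bool) (e' : Sym2 V) :
    bond (Function.update J e v) σ e' =
      bond J σ e' + if e' = e.1 then (v - J e) * (sg (σ x) * sg (σ y)) else 0 := by
  induction e' using Sym2.ind with
  | _ a b =>
    rw [bond_mk, bond_mk]
    unfold Jc
    by_cases hab : G.Adj a b
    · rw [dif_pos hab, dif_pos hab]
      by_cases h : s(a, b) = e.1
      · have h1 : (⟨s(a, b), hab⟩ : G.edgeSet) = e := Subtype.ext h
        rw [if_pos h, h1, Function.update_self]
        have h2 : sg (σ a) * sg (σ b) = sg (σ x) * sg (σ y) := by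
          rw [he] at h
          rcases Sym2.eq_iff.mp h with ⟨rfl, rfl⟩ | ⟨rfl, rfl⟩
          · rfl
          · ring
        rw [← h2]
        ring
      · have h1 : (⟨s(a, b), hab⟩ : G.edgeSet) ≠ e := fun h2 => h (congrArg Subtype.val h2)
        rw [if_neg h, Function.update_of_ne h1, add_zero]
    · rw [dif_neg hab, dif_neg hab]
      have h : s(a, b) ≠ e.1 := by
        intro h
        have := e.2
        rw [← h] at this
        exact hab this
      rw [if_neg h, add_zero]

theorem ham_update (J : Coupling G) (e : G.edgeSet) (v : ℝ) (x y : V) (he : e.1 = s(x, y))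
    (Λ : Finset V) (hx : x ∈ Λ) (σ : V → Bool) :
    ham (Function.update J e v) Λ σ = ham J Λ σ + (v - J e) * (sg (σ x) * sg (σ y)) := by
  unfold ham
  rw [Finset.sum_congr rfl fun e' _ => bond_update J e v x y he σ e', Finset.sum_add_distrib]
  congr 1
  have hmem : e.1 ∈ edgesOf G Λ := by
    rw [mem_edgesOf]
    have h2 := e.2
    rw [he] at h2 ⊢
    exact ⟨x, hx, y, h2, rfl⟩
  rw [Finset.sum_ite_eq' (edgesOf G Λ) e.1 fun _ => (v - J e) * (sg (σ x) * sg (σ y)),
    if_pos hmem]

theorem exp_mul_sign (t s : ℝ) (hs : s = 1 ∨ s = -1) :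
    Real.exp (t * s) = Real.cosh t + Real.sinh t * s := by
  rcases hs with rfl | rfl
  · rw [mul_one, mul_one, Real.cosh_add_sinh]
  · rw [mul_neg, mul_one, mul_neg, mul_one, ← sub_eq_add_neg, Real.cosh_sub_sinh]

theorem sg_sg_sign (a b : Bool) : sg a * sg b = 1 ∨ sg a * sg b = -1 := by
  cases a <;> cases b <;> simp [sg]

theorem gE_update (β : ℝ) (J : Coupling G) (e : G.edgeSet) (v : ℝ) (x y : V)
    (he : e.1 = s(x, y)) (Λ : Finset V) (hx : x ∈ Λ) (ω : V → Bool) (f : (V → Bool) → ℝ) :
    gE β (Function.update J e v) Λ ω f =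
      (Real.cosh (β * (v - J e)) * gE β J Λ ω f + Real.sinh (β * (v - J e)) *
        gE β J Λ ω (fun σ => sg (σ x) * sg (σ y) * f σ)) /
      (Real.cosh (β * (v - J e)) + Real.sinh (β * (v - J e)) *
        gE β J Λ ω (fun σ => sg (σ x) * sg (σ y))) := by
  set t := β * (v - J e) with ht
  have hexp : ∀ σ : V → Bool, Real.exp (β * ham (Function.update J e v) Λ σ) =
      Real.exp (β * ham J Λ σ) * (Real.cosh t + Real.sinh t * (sg (σ x) * sg (σ y))) := by
    intro σ
    rw [ham_update J e v x y he Λ hx σ, ← exp_mul_sign t _ (sg_sg_sign _ _), ← Real.exp_add]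
    congr 1
    rw [ht]
    ring
  have hZ := (Zp_pos β J Λ ω).ne'
  have h1 : Zp β (Function.update J e v) Λ ω = Zp β J Λ ω *
      (Real.cosh t + Real.sinh t * gE β J Λ ω (fun σ => sg (σ x) * sg (σ y))) := by
    unfold gE
    rw [mul_add, mul_comm (Real.sinh t), ← mul_assoc, mul_div_cancel₀ _ hZ]
    unfold Zp
    simp only [hexp]
    rw [Finset.sum_mul, Finset.sum_mul, ← Finset.sum_add_distrib]
    apply Finset.sum_congr rfl
    intro η _
    ring
  have h2 : ∑ η : Λ → Bool, Real.exp (β * ham (Function.update J e v) Λ (glue Λ η ω)) *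
      f (glue Λ η ω) = Zp β J Λ ω * (Real.cosh t * gE β J Λ ω f + Real.sinh t *
        gE β J Λ ω (fun σ => sg (σ x) * sg (σ y) * f σ)) := by
    unfold gE
    rw [mul_add, mul_left_comm, mul_div_cancel₀ _ hZ, mul_left_comm (Zp β J Λ ω) (Real.sinh t),
      mul_div_cancel₀ _ hZ]
    simp only [hexp]
    rw [Finset.mul_sum, Finset.mul_sum, ← Finset.sum_add_distrib]
    apply Finset.sum_congr rfl
    intro η _
    ring
  have h3 : gE β (Function.update J e v) Λ ω f =
      (∑ η : Λ → Bool, Real.exp (β * ham (Function.update J e v) Λ (glue Λ η ω)) *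
      f (glue Λ η ω)) / Zp β (Function.update J e v) Λ ω := rfl
  rw [h3, h1, h2, mul_div_mul_left _ _ hZ]

theorem denom_lower (t c : ℝ) (hc : |c| ≤ 1) :
    Real.exp (-|t|) ≤ Real.cosh t + Real.sinh t * c := by
  have h1 := abs_le.mp hc
  have h2 : -|Real.sinh t| ≤ Real.sinh t * c := by
    have h3 : |Real.sinh t * c| ≤ |Real.sinh t| := by
      rw [abs_mul]
      exact mul_le_of_le_one_right (abs_nonneg _) hc
    exact (abs_le.mp h3).1
  have h4 : Real.cosh t - |Real.sinh t| = Real.exp (-|t|) := by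
    rw [← Real.cosh_abs t, Real.abs_sinh, Real.cosh_sub_sinh]
  linarith

end

/-! ### The property: odd observables vanish in the limit -/

section

variable {V : Type} [Countable V] {G : SimpleGraph V} [G.LocallyFinite]

/-- All odd products of spins have vanishing limits with the boundary condition `ω₀`. -/
def NS (β : ℝ) (ω₀ : V → Bool) (Λs : ℕ → Finset V) (J : Coupling G) : Prop :=
  ∀ X : Finset V, Odd X.card → Tendsto (fun n => gE β J (Λs n) ω₀ (sX X)) atTop (𝓝 0)

theorem NS_update (β : ℝ) (ω₀ : V → Bool) (Λs : ℕ → Finset V) (hΛ : Tendsto Λs atTop atTop)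
    (J : Coupling G) (e : G.edgeSet) (v : ℝ) (h : NS β ω₀ Λs J) :
    NS β ω₀ Λs (Function.update J e v) := by
  intro X hX
  obtain ⟨x, y, he⟩ : ∃ x y, e.1 = s(x, y) := by
    induction h : e.1 using Sym2.ind with
    | _ x y => exact ⟨x, y, rfl⟩
  set t := β * (v - J e) with ht
  have hX2 : Odd (tg (tg X y) x).card := by
    rw [odd_tg, odd_tg, not_not]
    exact hX
  have h1 := h X hX
  have h2 := h _ hX2
  have h3 : Tendsto (fun n => Real.exp |t| * (Real.cosh t * |gE β J (Λs n) ω₀ (sX X)| +
      |Real.sinh t| * |gE β J (Λs n) ω₀ (sX (tg (tg X y) x))|)) atTop (𝓝 0) := by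
    have h4 := ((h1.abs.const_mul (Real.cosh t)).add (h2.abs.const_mul |Real.sinh t|)).const_mul
      (Real.exp |t|)
    simpa using h4
  have h5 : ∀ᶠ n in atTop, x ∈ Λs n := by
    have := hΛ.eventually (eventually_ge_atTop ({x} : Finset V))
    filter_upwards [this] with n hn
    exact hn (Finset.mem_singleton_self x)
  rw [tendsto_zero_iff_abs_tendsto_zero]
  refine squeeze_zero' (Eventually.of_forall fun n => abs_nonneg _) ?_ h3
  filter_upwards [h5] with n hn
  show |gE β (Function.update J e v) (Λs n) ω₀ (sX X)| ≤ _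
  rw [gE_update β J e v x y he (Λs n) hn ω₀ (sX X)]
  have h6 : (fun σ : V → Bool => sg (σ x) * sg (σ y) * sX X σ) = sX (tg (tg X y) x) := by
    funext σ
    rw [sX_tg, sX_tg, mul_assoc]
  rw [h6, ← ht]
  have h7 : |gE β J (Λs n) ω₀ (fun σ => sg (σ x) * sg (σ y))| ≤ 1 := by
    apply abs_gE_le
    intro σ
    rw [abs_mul, abs_sg, abs_sg, one_mul]
  have h8 := denom_lower t _ h7
  have h9 : 0 < Real.cosh t + Real.sinh t * gE β J (Λs n) ω₀ (fun σ => sg (σ x) * sg (σ y)) :=
    lt_of_lt_of_le (Real.exp_pos _) h8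
  rw [abs_div, abs_of_pos h9, div_le_iff₀ h9]
  have h10 : |Real.cosh t * gE β J (Λs n) ω₀ (sX X) +
      Real.sinh t * gE β J (Λs n) ω₀ (sX (tg (tg X y) x))| ≤
      Real.cosh t * |gE β J (Λs n) ω₀ (sX X)| +
      |Real.sinh t| * |gE β J (Λs n) ω₀ (sX (tg (tg X y) x))| := by
    refine (abs_add_le _ _).trans (le_of_eq ?_)
    rw [abs_mul, abs_mul, abs_of_pos (Real.cosh_pos t)]
  refine h10.trans ?_
  set K := Real.cosh t * |gE β J (Λs n) ω₀ (sX X)| +
      |Real.sinh t| * |gE β J (Λs n) ω₀ (sX (tg (tg X y) x))| with hK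
  have hK0 : 0 ≤ K := by
    have := Real.cosh_pos t
    positivity
  calc K = Real.exp |t| * K * Real.exp (-|t|) := by
        rw [mul_comm (Real.exp |t|), mul_assoc, ← Real.exp_add]
        simp
    _ ≤ Real.exp |t| * K * _ := mul_le_mul_of_nonneg_left h8 (by positivity)

theorem NS_change (β : ℝ) (ω₀ : V → Bool) (Λs : ℕ → Finset V) (hΛ : Tendsto Λs atTop atTop)
    (J J' : Coupling G) (e : G.edgeSet) (hJ : ∀ e', e' ≠ e → J' e' = J e')
    (h : NS β ω₀ Λs J) : NS β ω₀ Λs J' := by
  have h1 : J' = Function.update J e (J' e) := by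
    funext e'
    by_cases he : e' = e
    · subst he
      rw [Function.update_self]
    · rw [Function.update_of_ne he, hJ e' he]
  rw [h1]
  exact NS_update β ω₀ Λs hΛ J e (J' e) h

omit [Countable V] in
theorem measurable_ham_J (Λ : Finset V) (σ : V → Bool) :
    Measurable (fun J : Coupling G => ham J Λ σ) := by
  unfold ham
  apply Finset.measurable_sum
  intro e _
  induction e using Sym2.ind with
  | _ a b =>
    simp only [bond_mk]
    unfold Jc
    by_cases hab : G.Adj a b
    · simp only [dif_pos hab]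
      exact ((measurable_pi_apply _).mul_const _).mul_const _
    · simp only [dif_neg hab]
      exact measurable_const

omit [Countable V] in
theorem measurable_gE_J (β : ℝ) (Λ : Finset V) (ω : V → Bool) (f : (V → Bool) → ℝ) :
    Measurable (fun J : Coupling G => gE β J Λ ω f) := by
  have h1 : ∀ η : Λ → Bool, Measurable
      (fun J : Coupling G => Real.exp (β * ham J Λ (glue Λ η ω))) := fun η =>
    Real.measurable_exp.comp ((measurable_ham_J Λ (glue Λ η ω)).const_mul β)
  unfold gE Zp
  exact (Finset.measurable_sum _ fun η _ => (h1 η).mul_const _).div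
    (Finset.measurable_sum _ fun η _ => h1 η)

omit [Countable V] in
theorem NS_iff (β : ℝ) (ω₀ : V → Bool) (Λs : ℕ → Finset V) (J : Coupling G) :
    NS β ω₀ Λs J ↔ ∀ X : Finset V, Odd X.card → ∀ q : ℕ, ∃ N : ℕ, ∀ n : ℕ, N ≤ n →
      |gE β J (Λs n) ω₀ (sX X)| < 1 / ((q : ℝ) + 1) := by
  unfold NS
  refine forall_congr' fun X => forall_congr' fun _ => ?_
  rw [Metric.tendsto_atTop]
  simp only [Real.dist_eq, sub_zero]
  constructor
  · intro h q
    exact h _ (by positivity)
  · intro h ε hε
    obtain ⟨q, hq⟩ := exists_nat_one_div_lt hε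
    obtain ⟨N, hN⟩ := h q
    exact ⟨N, fun n hn => (hN n hn).trans hq⟩

theorem measurableSet_NS (β : ℝ) (ω₀ : V → Bool) (Λs : ℕ → Finset V) :
    MeasurableSet {J : Coupling G | NS β ω₀ Λs J} := by
  simp only [NS_iff]
  have h1 : {J : Coupling G | ∀ X : Finset V, Odd X.card → ∀ q : ℕ, ∃ N : ℕ, ∀ n : ℕ, N ≤ n →
      |gE β J (Λs n) ω₀ (sX X)| < 1 / ((q : ℝ) + 1)} =
      ⋂ X : Finset V, ⋂ (_ : Odd X.card), ⋂ q : ℕ, ⋃ N : ℕ, ⋂ n : ℕ, ⋂ (_ : N ≤ n),
        {J : Coupling G | |gE β J (Λs n) ω₀ (sX X)| < 1 / ((q : ℝ) + 1)} := by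
    ext J
    simp only [Set.mem_iInter, Set.mem_iUnion, Set.mem_ofPred_eq]
  rw [h1]
  refine MeasurableSet.iInter fun X => MeasurableSet.iInter fun _ => MeasurableSet.iInter fun q =>
    MeasurableSet.iUnion fun N => MeasurableSet.iInter fun n => MeasurableSet.iInter fun _ => ?_
  exact measurableSet_lt (measurable_gE_J β (Λs n) ω₀ (sX X)).abs measurable_const

end

/-! ### The zero-one law -/

section

variable {ι : Type} [Countable ι]

/-- replace finitely many coordinates -/
noncomputable def rep (F : Finset ι) (J' J : ι → ℝ) : ι → ℝ := fun e => if e ∈ F then J' e else J e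

omit [Countable ι] in
theorem rep_of_update (P : (ι → ℝ) → Prop)
    (hinv : ∀ (J J' : ι → ℝ) (e : ι), (∀ e', e' ≠ e → J' e' = J e') → P J → P J')
    (J' J : ι → ℝ) (F : Finset ι) (h : P J) : P (rep F J' J) := by
  induction F using Finset.induction_on with
  | empty =>
    have : rep ∅ J' J = J := by
      funext e
      simp [rep]
    rw [this]
    exact h
  | insert e F he ih =>
    refine hinv _ _ e ?_ ih
    intro e' h1
    simp [rep, h1]

omit [Countable ι] in
/-- **Zero-one law** for measurable properties of independent coordinates which do not depend on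
any single coordinate. -/
theorem zero_one (ν : ι → Measure ℝ) [∀ e, IsProbabilityMeasure (ν e)] (P : (ι → ℝ) → Prop)
    (hP : MeasurableSet {J | P J})
    (hinv : ∀ (J J' : ι → ℝ) (e : ι), (∀ e', e' ≠ e → J' e' = J e') → P J → P J') :
    Measure.infinitePi ν {J | P J} = 0 ∨ Measure.infinitePi ν {J | P J} = 1 := by
  set s : ι → MeasurableSpace (ι → ℝ) :=
    fun e => MeasurableSpace.comap (fun J : ι → ℝ => J e) inferInstance with hs
  have h_le : ∀ e, s e ≤ MeasurableSpace.pi := fun e => (measurable_pi_apply e).comap_le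
  have h_indep : iIndep s (Measure.infinitePi ν) := by
    have h1 : iIndepFun (fun (i : ι) (ω : ι → ℝ) => ω i) (Measure.infinitePi ν) :=
      iIndepFun_infinitePi (X := fun _ b => b) fun _ => measurable_id
    exact h1
  refine measure_zero_or_one_of_measurableSet_limsup (f := cofinite) (p := Set.Finite)
    (ns := fun F : Finset ι => (F : Set ι)) h_le h_indep (fun t ht => ht.compl_mem_cofinite)
    ?_ (fun F => F.finite_toSet) (fun n => ⟨{n}, by simp⟩) ?_
  · intro F F'
    exact ⟨F ∪ F', by simp, by simp⟩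
  · rw [limsup_eq_iInf_iSup, MeasurableSpace.measurableSet_iInf]
    intro u
    rw [MeasurableSpace.measurableSet_iInf]
    intro hu
    have hfin : uᶜ.Finite := hu
    set F := hfin.toFinset with hF
    have hmeas : @Measurable (ι → ℝ) (ι → ℝ) (⨆ a ∈ u, s a) MeasurableSpace.pi
        (rep F (fun _ => 0)) := by
      refine @measurable_pi_lambda _ _ _ (⨆ a ∈ u, s a) _ _ ?_
      intro e
      by_cases he : e ∈ F
      · have : (fun J : ι → ℝ => rep F (fun _ => 0) J e) = fun _ => (0 : ℝ) := by
          funext J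
          simp [rep, he]
        rw [this]
        exact @measurable_const _ _ _ (⨆ a ∈ u, s a) _
      · have h2 : (fun J : ι → ℝ => rep F (fun _ => 0) J e) = fun J => J e := by
          funext J
          simp [rep, he]
        rw [h2]
        have he' : e ∈ u := by
          by_contra h3
          exact he (hfin.mem_toFinset.mpr h3)
        have h4 : s e ≤ ⨆ a ∈ u, s a :=
          le_iSup₂_of_le (f := fun a (_ : a ∈ u) => s a) e he' le_rfl
        exact (comap_measurable (fun J : ι → ℝ => J e)).mono h4 le_rfl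
    have heq : {J : ι → ℝ | P J} = rep F (fun _ => 0) ⁻¹' {J | P J} := by
      ext J
      constructor
      · intro h
        exact rep_of_update P hinv _ J F h
      · intro h
        have h5 := rep_of_update P hinv J (rep F (fun _ => 0) J) F h
        have h6 : rep F J (rep F (fun _ => 0) J) = J := by
          funext e
          by_cases he : e ∈ F
          · simp [rep, he]
          · simp [rep, he]
        rw [h6] at h5
        exact h5
    rw [heq]
    exact hmeas hP

end

/-! ### Symmetry breaking -/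

section

variable {V : Type} [Countable V] {G : SimpleGraph V} [G.LocallyFinite]

/-- If odd observables do not vanish in the limit then some Gibbs state is not invariant. -/
theorem broken_of_not_NS (β : ℝ) (ω₀ : V → Bool) (Λs : ℕ → Finset V)
    (hΛ : Tendsto Λs atTop atTop) (J : Coupling G) (h : ¬ NS β ω₀ Λs J) :
    ∃ π : Measure (V → Bool), IsGibbs β J π ∧ IsGibbs β J (π.map flipAll) ∧
      π ≠ π.map flipAll := by
  rw [NS_iff] at h
  push Not at h
  obtain ⟨X, hX, q, hq⟩ := h
  set δ : ℝ := 1 / ((q : ℝ) + 1) with hδ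
  have hδ0 : 0 < δ := by positivity
  -- a sign
  obtain ⟨c, hc, hfreq⟩ : ∃ c : ℝ, (c = 1 ∨ c = -1) ∧
      ∃ᶠ n in atTop, gE β J (Λs n) ω₀ (fun σ => c * sX X σ) ≤ -δ := by
    have h1 : ∃ᶠ n in atTop, (gE β J (Λs n) ω₀ (sX X) ≤ -δ) ∨ (δ ≤ gE β J (Λs n) ω₀ (sX X)) := by
      rw [frequently_atTop]
      intro N
      obtain ⟨n, hn, h2⟩ := hq N
      refine ⟨n, hn, ?_⟩
      rcases le_abs'.mp h2 with h3 | h3
      · exact Or.inl h3
      · exact Or.inr h3
    rw [frequently_or_distrib] at h1
    rcases h1 with h1 | h1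
    · refine ⟨1, Or.inl rfl, h1.mono fun n hn => ?_⟩
      simpa using hn
    · refine ⟨-1, Or.inr rfl, h1.mono fun n hn => ?_⟩
      have h2 : gE β J (Λs n) ω₀ (fun σ => (-1) * sX X σ) = - gE β J (Λs n) ω₀ (sX X) := by
        unfold gE
        rw [← neg_div, ← Finset.sum_neg_distrib]
        congr 1
        apply Finset.sum_congr rfl
        intro η _
        ring
      rw [h2]
      linarith
  obtain ⟨φ, hφ, hφ2⟩ := extraction_of_frequently_atTop hfreq
  obtain ⟨π, hπ, hint0⟩ := exists_gibbs_le β J ω₀ (Λs ∘ φ) (hΛ.comp hφ.tendsto_atTop)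
  have hcont : Continuous (fun σ : V → Bool => c * sX X σ) := (continuous_sX X).const_mul c
  have hint := hint0 _ hcont (-δ) hφ2
  refine ⟨π, hπ, isGibbs_flip β J π hπ, ?_⟩
  intro heq
  have h0 : IsProbabilityMeasure π := hπ.1
  have h1 : ∫ ω, c * sX X ω ∂π = ∫ ω, c * sX X (flipAll ω) ∂π := by
    conv_lhs => rw [heq]
    rw [integral_map measurable_flipAll.aemeasurable hcont.measurable.aestronglyMeasurable]
  have h2 : ∫ ω, c * sX X (flipAll ω) ∂π = - ∫ ω, c * sX X ω ∂π := by
    rw [← integral_neg]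
    apply integral_congr_ae (ae_of_all _ fun ω => ?_)
    show c * sX X (flipAll ω) = -(c * sX X ω)
    rw [sX_flip X hX]
    ring
  rw [h2] at h1
  linarith

/-- **Almost sure symmetry breaking from positive probability.** -/
theorem broken_ae (ν : G.edgeSet → Measure ℝ) [∀ e, IsProbabilityMeasure (ν e)] (β : ℝ)
    (ω₀ : V → Bool) (Λs : ℕ → Finset V) (hΛ : Tendsto Λs atTop atTop)
    (h : Measure.infinitePi ν {J : Coupling G | NS β ω₀ Λs J} ≠ 1) :
    ∀ᵐ J ∂(Measure.infinitePi ν), ∃ π : Measure (V → Bool), IsGibbs β J π ∧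
      IsGibbs β J (π.map flipAll) ∧ π ≠ π.map flipAll := by
  have h1 := zero_one ν (fun J : Coupling G => NS β ω₀ Λs J) (measurableSet_NS β ω₀ Λs)
    (fun J J' e hJ h => NS_change β ω₀ Λs hΛ J J' e hJ h)
  have h2 : Measure.infinitePi ν {J : Coupling G | NS β ω₀ Λs J} = 0 := h1.resolve_right h
  have h3 : ∀ᵐ J ∂(Measure.infinitePi ν), ¬ NS β ω₀ Λs (J : Coupling G) := by
    rw [ae_iff]
    simpa using h2
  filter_upwards [h3] with J hJ
  exact broken_of_not_NS β ω₀ Λs hΛ J hJ

end

end Pool.T9h81.EAR
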